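import Pool.Agent.H81.SLP.Ctx
import Pool.Agent.H36.KBX.Coef
import Pool.Agent.H48.M5.Lag

/-!
# Change of the window for polynomials in the box of a line

The exponent `s` is pure if it involves the time variable only. A change of the window (with the
same cells) is an affine substitution: a bounded shift and a scaling of the time variable. It maps
pure parts to pure parts.
-/

set_option autoImplicit false

namespace Pool.M5.Box

open Finset MvPolynomial Pool.KA Pool.SLO Pool.Agent.H36.KBX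

section poly

variable {m : ℕ}

/-- Pure exponents: only the time variable. -/
def Pur (i₁ : Fin m) (s : Fin m →₀ ℕ) : Prop := ∀ j, j ≠ i₁ → s j = 0

theorem pur_iff {i₁ : Fin m} {s : Fin m →₀ ℕ} : Pur i₁ s ↔ s = Finsupp.single i₁ (s i₁) := by
  constructor
  · intro h
    ext j
    by_cases hj : j = i₁
    · rw [hj, Finsupp.single_eq_same]
    · rw [h j hj, Finsupp.single_eq_of_ne hj]
  · intro h j hj
    rw [h, Finsupp.single_eq_of_ne hj]

theorem pur_single (i₁ : Fin m) (k : ℕ) : Pur i₁ (Finsupp.single i₁ k) := fun _ hj =>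
  Finsupp.single_eq_of_ne hj

open Classical in
/-- The pure part. -/
noncomputable def pup (i₁ : Fin m) (G : MvPolynomial (Fin m) ℝ) : MvPolynomial (Fin m) ℝ :=
  ∑ s ∈ G.support.filter (Pur i₁), monomial s (coeff s G)

theorem coeff_pup_pur {i₁ : Fin m} {G : MvPolynomial (Fin m) ℝ} {t : Fin m →₀ ℕ}
    (h : Pur i₁ t) : coeff t (pup i₁ G) = coeff t G := by
  classical
  unfold pup
  rw [coeff_sum]
  simp only [coeff_monomial]
  rw [Finset.sum_ite_eq']
  split_ifs with h1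
  · rfl
  · by_contra h2
    refine h1 (Finset.mem_filter.2 ⟨?_, h⟩)
    exact mem_support_iff.2 (Ne.symm h2)

theorem coeff_pup_not {i₁ : Fin m} {G : MvPolynomial (Fin m) ℝ} {t : Fin m →₀ ℕ}
    (h : ¬ Pur i₁ t) : coeff t (pup i₁ G) = 0 := by
  classical
  unfold pup
  rw [coeff_sum]
  simp only [coeff_monomial]
  rw [Finset.sum_ite_eq']
  rw [if_neg]
  intro h1
  exact h (Finset.mem_filter.1 h1).2

theorem vars_pup (i₁ : Fin m) (G : MvPolynomial (Fin m) ℝ) : (pup i₁ G).vars ⊆ {i₁} := by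
  classical
  intro j hj
  rw [mem_vars_iff_mem_support] at hj
  obtain ⟨s, hs, hjs⟩ := hj
  have h1 : Pur i₁ s := by
    by_contra h
    exact (mem_support_iff.1 hs) (coeff_pup_not h)
  rw [Finset.mem_singleton]
  by_contra h
  exact (Finsupp.mem_support_iff.1 hjs) (h1 j h)

theorem coeff_of_vars {i₁ : Fin m} {G : MvPolynomial (Fin m) ℝ} (h : G.vars ⊆ {i₁})
    {t : Fin m →₀ ℕ} (ht : ¬ Pur i₁ t) : coeff t G = 0 := by
  by_contra h0
  apply ht
  intro j hj
  by_contra h1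
  have h2 : j ∈ G.vars := (mem_vars_iff_mem_support j).2 ⟨t, mem_support_iff.2 h0, Finsupp.mem_support_iff.2 h1⟩
  exact hj (Finset.mem_singleton.1 (h h2))

/-- The shift. -/
noncomputable def sft (o : Fin m → ℝ) (G : MvPolynomial (Fin m) ℝ) : MvPolynomial (Fin m) ℝ :=
  bind₁ (fun j => X j + C (o j)) G

theorem eval_sft (o : Fin m → ℝ) (G : MvPolynomial (Fin m) ℝ) (b : Fin m → ℝ) :
    eval b (sft o G) = eval (fun j => b j + o j) G := by
  unfold sft
  rw [eval, eval₂Hom_bind₁]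
  congr 1
  congr 1
  funext j
  change eval b (X j + C (o j)) = _
  rw [map_add, eval_X, eval_C]

theorem totalDegree_sft_le (o : Fin m → ℝ) (G : MvPolynomial (Fin m) ℝ) :
    (sft o G).totalDegree ≤ G.totalDegree := by
  refine totalDegree_bind₁_le _ (fun j => ?_) G
  refine (totalDegree_add _ _).trans (max_le ?_ ?_)
  · rw [totalDegree_X]
  · rw [totalDegree_C]
    exact Nat.zero_le _

theorem sft_sub (o : Fin m → ℝ) (G H : MvPolynomial (Fin m) ℝ) :
    sft o (G - H) = sft o G - sft o H := by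
  unfold sft
  rw [map_sub]

theorem vars_sft_pup (o : Fin m → ℝ) (i₁ : Fin m) (G : MvPolynomial (Fin m) ℝ) :
    (sft o (pup i₁ G)).vars ⊆ {i₁} := by
  classical
  unfold sft
  refine (vars_bind₁ _ _).trans ?_
  intro j hj
  rw [Finset.mem_biUnion] at hj
  obtain ⟨i, hi, hji⟩ := hj
  have h1 : i = i₁ := Finset.mem_singleton.1 (vars_pup i₁ G hi)
  have h2 := vars_add_subset _ _ hji
  rw [vars_C, Finset.union_empty, vars_X, h1] at h2
  exact h2

/-- The scaling of the time variable. -/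
noncomputable def scl (i₁ : Fin m) (l : ℝ) (G : MvPolynomial (Fin m) ℝ) :
    MvPolynomial (Fin m) ℝ := ∑ s ∈ G.support, monomial s (l ^ s i₁ * coeff s G)

theorem coeff_scl (i₁ : Fin m) (l : ℝ) (G : MvPolynomial (Fin m) ℝ) (t : Fin m →₀ ℕ) :
    coeff t (scl i₁ l G) = l ^ t i₁ * coeff t G := by
  classical
  unfold scl
  rw [coeff_sum]
  simp only [coeff_monomial]
  rw [Finset.sum_ite_eq']
  split_ifs with h1
  · rfl
  · rw [notMem_support_iff.1 h1, mul_zero]

theorem eval_scl (i₁ : Fin m) (l : ℝ) (G : MvPolynomial (Fin m) ℝ) (b : Fin m → ℝ) :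
    eval b (scl i₁ l G) = eval (fun j => if j = i₁ then l * b j else b j) G := by
  classical
  unfold scl
  rw [map_sum, eval_eq']
  refine Finset.sum_congr rfl fun s _ => ?_
  rw [eval_monomial, Finsupp.prod_fintype _ _ (fun i => pow_zero _)]
  have h1 : ∏ i, (if i = i₁ then l * b i else b i) ^ s i =
      (∏ i, (if i = i₁ then l else 1) ^ s i) * ∏ i, b i ^ s i := by
    rw [← Finset.prod_mul_distrib]
    refine Finset.prod_congr rfl fun i _ => ?_
    rw [← mul_pow]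
    split_ifs <;> ring
  have h2 : ∏ i, (if i = i₁ then l else 1) ^ s i = l ^ s i₁ := by
    rw [Finset.prod_eq_single i₁]
    · rw [if_pos rfl]
    · intro j _ hj
      rw [if_neg hj, one_pow]
    · intro h
      exact absurd (Finset.mem_univ _) h
  rw [h1, h2]
  ring

theorem totalDegree_scl_le (i₁ : Fin m) (l : ℝ) (G : MvPolynomial (Fin m) ℝ) :
    (scl i₁ l G).totalDegree ≤ G.totalDegree := by
  refine Finset.sup_mono ?_
  intro s hs
  rw [mem_support_iff, coeff_scl] at hs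
  exact mem_support_iff.2 (right_ne_zero_of_mul hs)

/-- Coefficients after a bounded shift. -/
theorem sft_bound (m K : ℕ) : ∃ C : ℝ, 0 ≤ C ∧ ∀ (G : MvPolynomial (Fin m) ℝ)
    (o : Fin m → ℝ) (c : ℝ), G.totalDegree ≤ K → (∀ j, |o j| ≤ 2) → (∀ s, |coeff s G| ≤ c) →
    ∀ s, |coeff s (sft o G)| ≤ C * c := by
  obtain ⟨C, hC0, hC⟩ := coef_bound m K
  refine ⟨C * ((bx m K).card * 3 ^ (m * K)), by positivity, ?_⟩
  intro G o c hG ho hc s
  have h1 := hC (sft o G) ((bx m K).card * (c * 3 ^ (m * K)))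
    ((totalDegree_sft_le o G).trans hG) (fun y hy => ?_) s
  · refine h1.trans (le_of_eq ?_)
    ring
  · rw [eval_sft]
    refine eval_bound G hG c 3 (by norm_num) hc _ fun i => ?_
    have := abs_add_le (y i) (o i)
    have h2 := hy i
    have h3 := ho i
    linarith

theorem totalDegree_pup_le (i₁ : Fin m) (G : MvPolynomial (Fin m) ℝ) :
    (pup i₁ G).totalDegree ≤ G.totalDegree := by
  refine Finset.sup_mono ?_
  intro s hs
  rw [mem_support_iff] at hs
  rw [mem_support_iff]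
  by_cases h : Pur i₁ s
  · rwa [coeff_pup_pur h] at hs
  · exact absurd (coeff_pup_not h) hs

/-- Coefficients after a bounded shift: pure and other coefficients. -/
theorem sft_bound₂ (m K : ℕ) : ∃ C : ℝ, 0 ≤ C ∧ ∀ (i₁ : Fin m) (G : MvPolynomial (Fin m) ℝ)
    (o : Fin m → ℝ) (e e' : ℝ), G.totalDegree ≤ K → (∀ j, |o j| ≤ 2) → 0 ≤ e → 0 ≤ e' →
    (∀ s, ¬ Pur i₁ s → |coeff s G| ≤ e) → (∀ s, Pur i₁ s → |coeff s G| ≤ e') →
    (∀ s, ¬ Pur i₁ s → |coeff s (sft o G)| ≤ C * e) ∧ ∀ s, |coeff s (sft o G)| ≤ C * (e + e') := by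
  obtain ⟨C, hC0, hC⟩ := sft_bound m K
  refine ⟨C, hC0, ?_⟩
  intro i₁ G o e e' hG ho he he' h1 h2
  constructor
  · intro s hs
    have h3 : coeff s (sft o G) = coeff s (sft o (G - pup i₁ G)) := by
      rw [sft_sub, coeff_sub, coeff_of_vars (vars_sft_pup o i₁ G) hs, sub_zero]
    rw [h3]
    refine hC (G - pup i₁ G) o e ?_ ho (fun t => ?_) s
    · exact (totalDegree_sub _ _).trans (max_le hG ((totalDegree_pup_le i₁ G).trans hG))
    · rw [coeff_sub]
      by_cases ht : Pur i₁ t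
      · rw [coeff_pup_pur ht, sub_self, abs_zero]
        exact he
      · rw [coeff_pup_not ht, sub_zero]
        exact h1 t ht
  · refine hC G o (e + e') hG ho fun t => ?_
    by_cases ht : Pur i₁ t
    · exact (h2 t ht).trans (by linarith)
    · exact (h1 t ht).trans (by linarith)

end poly

section fam

variable {m J : ℕ}

/-- The offsets of a change of the window, as a function of the windows and the cells: `T` is the
window at `w`, `z` and `z'` the cells of the position at `w` and at `w'`, `v` the cell of the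
velocity. -/
noncomputable def off (i₁ : Fin m) (a w w' q : ℕ) (T : ℕ) (z z' v : Fin m → ℤ) : Fin m → ℝ :=
  fun j => if j = i₁ then 2 ^ w' * ((T : ℝ) / 2 ^ w - ((T / 2 ^ (w - w') : ℕ) : ℝ) / 2 ^ w')
    else (z j : ℝ) - z' j - 2 ^ a * ((v j : ℝ) / 2 ^ q) *
      ((T : ℝ) / 2 ^ w - ((T / 2 ^ (w - w') : ℕ) : ℝ) / 2 ^ w')

theorem T1_div (F : Fam m J) {w w' : ℕ} (h1 : w' ≤ w) (h2 : w ≤ J) (ω : F.Ω) :
    F.T1 w' ω = F.T1 w ω / 2 ^ (w - w') := by
  unfold Fam.T1
  rw [Nat.div_div_eq_div_mul, ← pow_add]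
  congr 2
  omega

theorem dt_mem (T : ℕ) {w w' : ℕ} (h1 : w' ≤ w) :
    0 ≤ (T : ℝ) / 2 ^ w - ((T / 2 ^ (w - w') : ℕ) : ℝ) / 2 ^ w' ∧
      (T : ℝ) / 2 ^ w - ((T / 2 ^ (w - w') : ℕ) : ℝ) / 2 ^ w' ≤ 1 / 2 ^ w' := by
  have hw : (2 : ℝ) ^ w = 2 ^ w' * 2 ^ (w - w') := by
    rw [← pow_add]
    congr 1
    omega
  have h3 : (0 : ℝ) < 2 ^ w' := by positivity
  have h4 : (0 : ℝ) < 2 ^ (w - w') := by positivity
  have h5 : ((T / 2 ^ (w - w') : ℕ) : ℝ) * 2 ^ (w - w') ≤ T := by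
    exact_mod_cast Nat.div_mul_le_self T (2 ^ (w - w'))
  have h6 : (T : ℝ) ≤ ((T / 2 ^ (w - w') : ℕ) : ℝ) * 2 ^ (w - w') + 2 ^ (w - w') := by
    have h7 := Nat.lt_div_mul_add (a := T) (b := 2 ^ (w - w')) (by positivity)
    exact_mod_cast h7.le
  have e : (T : ℝ) / 2 ^ w - ((T / 2 ^ (w - w') : ℕ) : ℝ) / 2 ^ w' =
      (T - ((T / 2 ^ (w - w') : ℕ) : ℝ) * 2 ^ (w - w')) / (2 ^ w' * 2 ^ (w - w')) := by
    rw [hw]
    field_simp
  rw [e]
  constructor
  · exact div_nonneg (by linarith) (by positivity)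
  · rw [div_le_div_iff₀ (by positivity) h3]
    have h8 : (T - ((T / 2 ^ (w - w') : ℕ) : ℝ) * 2 ^ (w - w')) ≤ 2 ^ (w - w') := by linarith
    calc (T - ((T / 2 ^ (w - w') : ℕ) : ℝ) * 2 ^ (w - w')) * 2 ^ w'
        ≤ 2 ^ (w - w') * 2 ^ w' := mul_le_mul_of_nonneg_right h8 h3.le
      _ = 1 * (2 ^ w' * 2 ^ (w - w')) := by ring

/-- The offsets are bounded: they lie in `(-1, 2)`. -/
theorem off_mem (F : Fam m J) (i₁ : Fin m) {a w w' q : ℕ} (h1 : w' ≤ w) (h2 : w ≤ J)
    (h3 : a ≤ q + w') (ω : F.Ω) (j : Fin m) :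
    -1 < off i₁ a w w' q (F.T1 w ω) (clp F i₁ a w ω) (clp F i₁ a w' ω) (cld F i₁ q ω) j ∧
      off i₁ a w w' q (F.T1 w ω) (clp F i₁ a w ω) (clp F i₁ a w' ω) (cld F i₁ q ω) j < 2 := by
  obtain ⟨d1, d2⟩ := dt_mem (F.T1 w ω) h1
  have hw' : (0 : ℝ) < 2 ^ w' := by positivity
  have ha : (0 : ℝ) < 2 ^ a := by positivity
  have hq : (0 : ℝ) < 2 ^ q := by positivity
  set δ : ℝ := (F.T1 w ω : ℝ) / 2 ^ w - ((F.T1 w ω / 2 ^ (w - w') : ℕ) : ℝ) / 2 ^ w' with hδ
  unfold off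
  split_ifs with hj
  · have h4 : 2 ^ w' * δ ≤ 1 := by
      calc 2 ^ w' * δ ≤ 2 ^ w' * (1 / 2 ^ w') := mul_le_mul_of_nonneg_left d2 hw'.le
        _ = 1 := by field_simp
    have h5 : 0 ≤ 2 ^ w' * δ := mul_nonneg hw'.le d1
    constructor
    · linarith
    · linarith
  · have ez : (clp F i₁ a w ω j : ℝ) = 2 ^ a * F.x1 w ω j - Int.fract (2 ^ a * F.x1 w ω j) := by
      unfold clp Int.fract
      rw [if_neg hj]
      ring
    have ez' : (clp F i₁ a w' ω j : ℝ) =
        2 ^ a * F.x1 w' ω j - Int.fract (2 ^ a * F.x1 w' ω j) := by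
      unfold clp Int.fract
      rw [if_neg hj]
      ring
    have ev : (cld F i₁ q ω j : ℝ) = 2 ^ q * F.d ω j - Int.fract (2 ^ q * F.d ω j) := by
      unfold cld Int.fract
      rw [if_neg hj]
      ring
    have ex : F.x1 w ω j - F.x1 w' ω j = δ * F.d ω j := by
      unfold Fam.x1
      rw [hδ, T1_div F h1 h2]
      ring
    have f1 := Int.fract_nonneg (2 ^ a * F.x1 w ω j)
    have f2 := Int.fract_lt_one (2 ^ a * F.x1 w ω j)
    have f3 := Int.fract_nonneg (2 ^ a * F.x1 w' ω j)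
    have f4 := Int.fract_lt_one (2 ^ a * F.x1 w' ω j)
    have f5 := Int.fract_nonneg (2 ^ q * F.d ω j)
    have f6 := Int.fract_lt_one (2 ^ q * F.d ω j)
    have e : (clp F i₁ a w ω j : ℝ) - clp F i₁ a w' ω j -
        2 ^ a * ((cld F i₁ q ω j : ℝ) / 2 ^ q) * δ =
        2 ^ a * δ * (Int.fract (2 ^ q * F.d ω j) / 2 ^ q) - Int.fract (2 ^ a * F.x1 w ω j) +
          Int.fract (2 ^ a * F.x1 w' ω j) := by
      rw [ez, ez', ev]
      have h7 : 2 ^ a * F.x1 w ω j - 2 ^ a * F.x1 w' ω j = 2 ^ a * (δ * F.d ω j) := by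
        rw [← mul_sub, ex]
      have h8 : (2 ^ q * F.d ω j - Int.fract (2 ^ q * F.d ω j)) / 2 ^ q =
          F.d ω j - Int.fract (2 ^ q * F.d ω j) / 2 ^ q := by
        field_simp
      rw [h8]
      linarith
    rw [e]
    have g1 : 0 ≤ 2 ^ a * δ * (Int.fract (2 ^ q * F.d ω j) / 2 ^ q) := by positivity
    have g2 : 2 ^ a * δ * (Int.fract (2 ^ q * F.d ω j) / 2 ^ q) ≤ 1 := by
      have h9 : (2 : ℝ) ^ a ≤ 2 ^ q * 2 ^ w' := by
        rw [← pow_add]
        exact pow_le_pow_right₀ (by norm_num) h3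
      calc 2 ^ a * δ * (Int.fract (2 ^ q * F.d ω j) / 2 ^ q)
          ≤ (2 ^ q * 2 ^ w') * (1 / 2 ^ w') * (1 / 2 ^ q) :=
            mul_le_mul (mul_le_mul h9 d2 d1 (by positivity))
              (div_le_div_of_nonneg_right f6.le hq.le) (by positivity) (by positivity)
        _ = 1 := by field_simp
    constructor
    · linarith
    · linarith

theorem abs_off_le (F : Fam m J) (i₁ : Fin m) {a w w' q : ℕ} (h1 : w' ≤ w) (h2 : w ≤ J)
    (h3 : a ≤ q + w') (ω : F.Ω) (j : Fin m) :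
    |off i₁ a w w' q (F.T1 w ω) (clp F i₁ a w ω) (clp F i₁ a w' ω) (cld F i₁ q ω) j| ≤ 2 := by
  obtain ⟨d1, d2⟩ := off_mem F i₁ h1 h2 h3 ω j
  rw [abs_le]
  constructor <;> linarith

/-- The change of the window for points. -/
theorem sb_change (F : Fam m J) (i₁ : Fin m) {a w w' q : ℕ} (h1 : w' ≤ w) (h2 : w ≤ J)
    (ω : F.Ω) (b : Fin m → ℝ) :
    sb i₁ a w (cw F i₁ a w ω) (dq F i₁ q ω) b =
      sb i₁ a w' (cw F i₁ a w' ω) (dq F i₁ q ω) (fun j => (if j = i₁ then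
        (1 / 2 ^ (w - w') : ℝ) * b j else b j) +
        off i₁ a w w' q (F.T1 w ω) (clp F i₁ a w ω) (clp F i₁ a w' ω) (cld F i₁ q ω) j) := by
  have hw : (2 : ℝ) ^ w = 2 ^ w' * 2 ^ (w - w') := by
    rw [← pow_add]
    congr 1
    omega
  rw [cw_eq, cw_eq, dq_eq]
  funext j
  unfold sb off
  rw [T1_div F h1 h2]
  by_cases hj : j = i₁
  · simp only [if_pos hj, if_true]
    rw [hw]
    field_simp
    ring
  · simp only [if_neg hj, if_true]
    rw [hw]
    field_simp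
    ring

/-- **The change of the window**, from the large window to the small one. -/
theorem plb_change (F : Fam m J) (i₁ : Fin m) {a w w' q : ℕ} (h1 : w' ≤ w) (h2 : w ≤ J)
    (ω : F.Ω) (G : MvPolynomial (Fin m) ℝ) :
    plb F i₁ a w q ω G = scl i₁ (1 / 2 ^ (w - w')) (sft (off i₁ a w w' q (F.T1 w ω)
      (clp F i₁ a w ω) (clp F i₁ a w' ω) (cld F i₁ q ω)) (plb F i₁ a w' q ω G)) := by
  refine MvPolynomial.funext fun b => ?_
  rw [eval_scl, eval_sft]
  unfold plb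
  rw [eval_pull, eval_pull, sb_change F i₁ h1 h2]

/-- The change of the window, from the small window to the large one. -/
theorem plb_change' (F : Fam m J) (i₁ : Fin m) {a w w' q : ℕ} (h1 : w' ≤ w) (h2 : w ≤ J)
    (ω : F.Ω) (G : MvPolynomial (Fin m) ℝ) :
    plb F i₁ a w' q ω G = sft (fun j => -off i₁ a w w' q (F.T1 w ω)
      (clp F i₁ a w ω) (clp F i₁ a w' ω) (cld F i₁ q ω) j) (scl i₁ (2 ^ (w - w'))
        (plb F i₁ a w q ω G)) := by
  refine MvPolynomial.funext fun b => ?_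
  rw [eval_sft, eval_scl, plb_change F i₁ h1 h2, eval_scl, eval_sft]
  congr 1
  congr 1
  funext j
  split_ifs with hj
  · field_simp
    ring
  · ring

/-- **(B1a)** Two labels in the same cells. From the large window `w'` to the small one `w`: the
error of the coefficients which are not pure does not see the pure ones; the pure coefficients of
order `k` gain `2 ^ (-k (w - w'))`. -/
theorem b1a (m K : ℕ) : ∃ C : ℝ, 0 ≤ C ∧ ∀ {J : ℕ} (F : Fam m J) (i₁ : Fin m) (a w w' q : ℕ)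
    (ω ω' : F.Ω) (H H' : MvPolynomial (Fin m) ℝ) (e e' : ℝ), w' ≤ w → w ≤ J → a ≤ q + w' →
    F.T1 w ω = F.T1 w ω' → clp F i₁ a w ω = clp F i₁ a w ω' →
    clp F i₁ a w' ω = clp F i₁ a w' ω' → cld F i₁ q ω = cld F i₁ q ω' →
    H.totalDegree ≤ K → H'.totalDegree ≤ K → 0 ≤ e → 0 ≤ e' →
    (∀ s, ¬ Pur i₁ s →
      |coeff s (plb F i₁ a w' q ω H) - coeff s (plb F i₁ a w' q ω' H')| ≤ e) →
    (∀ s, Pur i₁ s →
      |coeff s (plb F i₁ a w' q ω H) - coeff s (plb F i₁ a w' q ω' H')| ≤ e') →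
    (∀ s, ¬ Pur i₁ s → |coeff s (plb F i₁ a w q ω H) - coeff s (plb F i₁ a w q ω' H')| ≤
      (1 / 2 ^ (w - w')) ^ s i₁ * (C * e)) ∧
    ∀ s, |coeff s (plb F i₁ a w q ω H) - coeff s (plb F i₁ a w q ω' H')| ≤
      (1 / 2 ^ (w - w')) ^ s i₁ * (C * (e + e')) := by
  obtain ⟨C, hC0, hC⟩ := sft_bound₂ m K
  refine ⟨C, hC0, ?_⟩
  intro J F i₁ a w w' q ω ω' H H' e e' h1 h2 h3 hT hz hz' hv hH hH' he he' g1 g2
  set o := off i₁ a w w' q (F.T1 w ω) (clp F i₁ a w ω) (clp F i₁ a w' ω) (cld F i₁ q ω) with ho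
  have ho' : off i₁ a w w' q (F.T1 w ω') (clp F i₁ a w ω') (clp F i₁ a w' ω') (cld F i₁ q ω') =
      o := by
    rw [ho, hT, hz, hz', hv]
  have key : ∀ s, coeff s (plb F i₁ a w q ω H) - coeff s (plb F i₁ a w q ω' H') =
      (1 / 2 ^ (w - w')) ^ s i₁ * coeff s (sft o (plb F i₁ a w' q ω H -
        plb F i₁ a w' q ω' H')) := by
    intro s
    rw [plb_change F i₁ h1 h2 ω, plb_change F i₁ h1 h2 ω', ho', ← ho, coeff_scl, coeff_scl,
      ← mul_sub, ← coeff_sub, ← sft_sub]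
  have hd : (plb F i₁ a w' q ω H - plb F i₁ a w' q ω' H').totalDegree ≤ K :=
    (totalDegree_sub _ _).trans (max_le ((totalDegree_pull_le _ _ _ _ _ _).trans hH)
      ((totalDegree_pull_le _ _ _ _ _ _).trans hH'))
  obtain ⟨r1, r2⟩ := hC i₁ _ o e e' hd (abs_off_le F i₁ h1 h2 h3 ω) he he'
    (fun s hs => by rw [coeff_sub]; exact g1 s hs) (fun s hs => by rw [coeff_sub]; exact g2 s hs)
  constructor
  · intro s hs
    rw [key, abs_mul, abs_of_nonneg (by positivity : (0 : ℝ) ≤ (1 / 2 ^ (w - w')) ^ s i₁)]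
    exact mul_le_mul_of_nonneg_left (r1 s hs) (by positivity)
  · intro s
    rw [key, abs_mul, abs_of_nonneg (by positivity : (0 : ℝ) ≤ (1 / 2 ^ (w - w')) ^ s i₁)]
    exact mul_le_mul_of_nonneg_left (r2 s) (by positivity)

/-- (B1a), the coefficients which are not pure. -/
theorem b1a_np (m K : ℕ) : ∃ C : ℝ, 0 ≤ C ∧ ∀ {J : ℕ} (F : Fam m J) (i₁ : Fin m) (a w w' q : ℕ)
    (ω ω' : F.Ω) (H H' : MvPolynomial (Fin m) ℝ) (e : ℝ), w' ≤ w → w ≤ J → a ≤ q + w' →
    F.T1 w ω = F.T1 w ω' → clp F i₁ a w ω = clp F i₁ a w ω' →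
    clp F i₁ a w' ω = clp F i₁ a w' ω' → cld F i₁ q ω = cld F i₁ q ω' →
    H.totalDegree ≤ K → H'.totalDegree ≤ K → 0 ≤ e →
    (∀ s, ¬ Pur i₁ s →
      |coeff s (plb F i₁ a w' q ω H) - coeff s (plb F i₁ a w' q ω' H')| ≤ e) →
    ∀ s, ¬ Pur i₁ s →
      |coeff s (plb F i₁ a w q ω H) - coeff s (plb F i₁ a w q ω' H')| ≤ C * e := by
  classical
  obtain ⟨C, hC0, hC⟩ := b1a m K
  refine ⟨C, hC0, ?_⟩
  intro J F i₁ a w w' q ω ω' H H' e h1 h2 h3 hT hz hz' hv hH hH' he g1 s hs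
  set E := ∑ t ∈ (plb F i₁ a w' q ω H - plb F i₁ a w' q ω' H').support,
    |coeff t (plb F i₁ a w' q ω H - plb F i₁ a w' q ω' H')| with hE
  have hE0 : 0 ≤ E := Finset.sum_nonneg fun t _ => abs_nonneg _
  have hE1 : ∀ t, |coeff t (plb F i₁ a w' q ω H) - coeff t (plb F i₁ a w' q ω' H')| ≤ E := by
    intro t
    rw [← coeff_sub]
    by_cases ht : t ∈ (plb F i₁ a w' q ω H - plb F i₁ a w' q ω' H').support
    · exact Finset.single_le_sum (f := fun t =>
        |coeff t (plb F i₁ a w' q ω H - plb F i₁ a w' q ω' H')|) (fun t _ => abs_nonneg _) ht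
    · rw [notMem_support_iff.1 ht, abs_zero]
      exact hE0
  have r := (hC F i₁ a w w' q ω ω' H H' e E h1 h2 h3 hT hz hz' hv hH hH' he hE0 g1
    (fun t _ => hE1 t)).1 s hs
  refine r.trans ?_
  have h5 : ((1 : ℝ) / 2 ^ (w - w')) ^ s i₁ ≤ 1 := by
    refine pow_le_one₀ (by positivity) ?_
    rw [div_le_one (by positivity)]
    exact one_le_pow₀ (by norm_num)
  calc (1 / 2 ^ (w - w')) ^ s i₁ * (C * e) ≤ 1 * (C * e) :=
        mul_le_mul_of_nonneg_right h5 (by positivity)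
    _ = C * e := one_mul _

/-- **(B1b)** From the small window `w` to the large one `w'`. -/
theorem b1b (m K : ℕ) : ∃ C : ℝ, 0 ≤ C ∧ ∀ {J : ℕ} (F : Fam m J) (i₁ : Fin m) (a w w' q : ℕ)
    (ω ω' : F.Ω) (H H' : MvPolynomial (Fin m) ℝ) (e e' : ℝ), w' ≤ w → w ≤ J → a ≤ q + w' →
    F.T1 w ω = F.T1 w ω' → clp F i₁ a w ω = clp F i₁ a w ω' →
    clp F i₁ a w' ω = clp F i₁ a w' ω' → cld F i₁ q ω = cld F i₁ q ω' →
    H.totalDegree ≤ K → H'.totalDegree ≤ K → 0 ≤ e → 0 ≤ e' →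
    (∀ s, ¬ Pur i₁ s → |coeff s (plb F i₁ a w q ω H) - coeff s (plb F i₁ a w q ω' H')| ≤ e) →
    (∀ s, Pur i₁ s → |coeff s (plb F i₁ a w q ω H) - coeff s (plb F i₁ a w q ω' H')| ≤ e') →
    (∀ s, ¬ Pur i₁ s → |coeff s (plb F i₁ a w' q ω H) - coeff s (plb F i₁ a w' q ω' H')| ≤
      C * 2 ^ (K * (w - w')) * e) ∧
    ∀ s, |coeff s (plb F i₁ a w' q ω H) - coeff s (plb F i₁ a w' q ω' H')| ≤
      C * 2 ^ (K * (w - w')) * (e + e') := by
  obtain ⟨C, hC0, hC⟩ := sft_bound₂ m K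
  refine ⟨C, hC0, ?_⟩
  intro J F i₁ a w w' q ω ω' H H' e e' h1 h2 h3 hT hz hz' hv hH hH' he he' g1 g2
  set o : Fin m → ℝ := fun j => -off i₁ a w w' q (F.T1 w ω) (clp F i₁ a w ω) (clp F i₁ a w' ω)
    (cld F i₁ q ω) j with ho
  have ho' : (fun j => -off i₁ a w w' q (F.T1 w ω') (clp F i₁ a w ω') (clp F i₁ a w' ω')
      (cld F i₁ q ω') j) = o := by
    rw [ho, hT, hz, hz', hv]
  have hss : ∀ G G' : MvPolynomial (Fin m) ℝ, scl i₁ (2 ^ (w - w')) G -
      scl i₁ (2 ^ (w - w')) G' = scl i₁ (2 ^ (w - w')) (G - G') := by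
    intro G G'
    ext s
    rw [coeff_sub, coeff_scl, coeff_scl, coeff_scl, coeff_sub, mul_sub]
  have key : ∀ s, coeff s (plb F i₁ a w' q ω H) - coeff s (plb F i₁ a w' q ω' H') =
      coeff s (sft o (scl i₁ (2 ^ (w - w')) (plb F i₁ a w q ω H - plb F i₁ a w q ω' H'))) := by
    intro s
    rw [plb_change' F i₁ h1 h2 ω, plb_change' F i₁ h1 h2 ω', ho', ← ho, ← coeff_sub,
      ← sft_sub, hss]
  have hd0 : (plb F i₁ a w q ω H - plb F i₁ a w q ω' H').totalDegree ≤ K :=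
    (totalDegree_sub _ _).trans (max_le ((totalDegree_pull_le _ _ _ _ _ _).trans hH)
      ((totalDegree_pull_le _ _ _ _ _ _).trans hH'))
  have hd := (totalDegree_scl_le i₁ (2 ^ (w - w')) (plb F i₁ a w q ω H -
    plb F i₁ a w q ω' H')).trans hd0
  have hpow : ∀ s : Fin m →₀ ℕ, coeff s (plb F i₁ a w q ω H - plb F i₁ a w q ω' H') ≠ 0 →
      ((2 : ℝ) ^ (w - w')) ^ s i₁ ≤ 2 ^ (K * (w - w')) := by
    intro s hs
    rw [← pow_mul]
    refine pow_le_pow_right₀ (by norm_num) ?_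
    rw [mul_comm]
    refine Nat.mul_le_mul_right _ ?_
    refine (monomial_le_degreeOf i₁ (mem_support_iff.2 hs)).trans ?_
    exact (degreeOf_le_totalDegree _ i₁).trans hd0
  have hsc : ∀ (s : Fin m →₀ ℕ) (x : ℝ), 0 ≤ x →
      |coeff s (plb F i₁ a w q ω H - plb F i₁ a w q ω' H')| ≤ x →
      |coeff s (scl i₁ (2 ^ (w - w')) (plb F i₁ a w q ω H - plb F i₁ a w q ω' H'))| ≤
        2 ^ (K * (w - w')) * x := by
    intro s x hx h
    rw [coeff_scl, abs_mul, abs_of_nonneg (by positivity : (0 : ℝ) ≤ (2 ^ (w - w')) ^ s i₁)]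
    by_cases h0 : coeff s (plb F i₁ a w q ω H - plb F i₁ a w q ω' H') = 0
    · rw [h0, abs_zero, mul_zero]
      positivity
    · exact mul_le_mul (hpow s h0) h (abs_nonneg _) (by positivity)
  obtain ⟨r1, r2⟩ := hC i₁ _ o (2 ^ (K * (w - w')) * e) (2 ^ (K * (w - w')) * e') hd
    (fun j => by
      rw [ho]
      simp only [abs_neg]
      exact abs_off_le F i₁ h1 h2 h3 ω j) (by positivity) (by positivity)
    (fun s hs => hsc s e he (by rw [coeff_sub]; exact g1 s hs))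
    (fun s hs => hsc s e' he' (by rw [coeff_sub]; exact g2 s hs))
  constructor
  · intro s hs
    rw [key]
    refine (r1 s hs).trans (le_of_eq ?_)
    ring
  · intro s
    rw [key]
    refine (r2 s).trans (le_of_eq ?_)
    ring

open Classical in
/-- The integers in an open interval of length three. -/
theorem three_ints (x : ℝ) : ∃ S : Finset ℤ, S.card ≤ 3 ∧ ∀ n : ℤ, x < n → (n : ℝ) < x + 3 →
    n ∈ S := by
  refine ⟨Finset.Icc (⌊x⌋ + 1) (⌊x⌋ + 3), ?_, fun n h1 h2 => ?_⟩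
  · rw [Int.card_Icc]
    have : ⌊x⌋ + 3 + 1 - (⌊x⌋ + 1) = 3 := by ring
    rw [this]
    norm_num
  · rw [Finset.mem_Icc]
    constructor
    · have : ⌊x⌋ < n := Int.floor_lt.2 h1
      omega
    · have h3 : (n : ℝ) < ⌊x⌋ + 1 + 3 := by
        have := Int.lt_floor_add_one x
        linarith
      have h4 : n < ⌊x⌋ + 1 + 3 := by exact_mod_cast h3
      omega

/-- The points of a cube of side three. -/
theorem three_cube (x : Fin m → ℝ) : ∃ S : Finset (Fin m → ℤ), S.card ≤ 3 ^ m ∧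
    ∀ n : Fin m → ℤ, (∀ j, x j < n j ∧ (n j : ℝ) < x j + 3) → n ∈ S := by
  classical
  choose S h1 h2 using fun j => three_ints (x j)
  refine ⟨Fintype.piFinset S, ?_, fun n hn => ?_⟩
  · rw [Fintype.card_piFinset]
    calc ∏ j, (S j).card ≤ ∏ _j : Fin m, 3 := Finset.prod_le_prod' fun j _ => h1 j
      _ = 3 ^ m := by rw [Finset.prod_const, Finset.card_univ, Fintype.card_fin]
  · rw [Fintype.mem_piFinset]
    intro j
    exact h2 j (n j) (hn j).1 (hn j).2

/-- **(B2)** Given the small window, the cell at `w` and the cell of the velocity there are at most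
`3 ^ m` cells at `w'`. -/
theorem b2 (F : Fam m J) (i₁ : Fin m) {a w w' q : ℕ} (h1 : w' ≤ w) (h2 : w ≤ J)
    (h3 : a ≤ q + w') (T : ℕ) (z v : Fin m → ℤ) : ∃ S : Finset (Fin m → ℤ), S.card ≤ 3 ^ m ∧
    ∀ ω, F.T1 w ω = T → clp F i₁ a w ω = z → cld F i₁ q ω = v → clp F i₁ a w' ω ∈ S := by
  obtain ⟨S, hS, hS'⟩ := three_cube (fun j => if j = i₁ then (-1 : ℝ) else
    (z j : ℝ) - 2 ^ a * ((v j : ℝ) / 2 ^ q) *
      ((T : ℝ) / 2 ^ w - ((T / 2 ^ (w - w') : ℕ) : ℝ) / 2 ^ w') - 2)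
  refine ⟨S, hS, fun ω e1 e2 e3 => hS' _ fun j => ?_⟩
  obtain ⟨d1, d2⟩ := off_mem F i₁ h1 h2 h3 ω j
  rw [e1, e2, e3] at d1 d2
  unfold off at d1 d2
  by_cases hj : j = i₁
  · simp only [if_pos hj]
    unfold clp
    rw [if_pos hj]
    norm_num
  · simp only [if_neg hj] at d1 d2 ⊢
    constructor <;> linarith

/-- (B2), the other direction: given the small window, the cell at `w'` and the cell of the
velocity there are at most `3 ^ m` cells at `w`. -/
theorem b2' (F : Fam m J) (i₁ : Fin m) {a w w' q : ℕ} (h1 : w' ≤ w) (h2 : w ≤ J)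
    (h3 : a ≤ q + w') (T : ℕ) (z v : Fin m → ℤ) : ∃ S : Finset (Fin m → ℤ), S.card ≤ 3 ^ m ∧
    ∀ ω, F.T1 w ω = T → clp F i₁ a w' ω = z → cld F i₁ q ω = v → clp F i₁ a w ω ∈ S := by
  obtain ⟨S, hS, hS'⟩ := three_cube (fun j => if j = i₁ then (-1 : ℝ) else
    (z j : ℝ) + 2 ^ a * ((v j : ℝ) / 2 ^ q) *
      ((T : ℝ) / 2 ^ w - ((T / 2 ^ (w - w') : ℕ) : ℝ) / 2 ^ w') - 1)
  refine ⟨S, hS, fun ω e1 e2 e3 => hS' _ fun j => ?_⟩
  obtain ⟨d1, d2⟩ := off_mem F i₁ h1 h2 h3 ω j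
  rw [e1, e2, e3] at d1 d2
  unfold off at d1 d2
  by_cases hj : j = i₁
  · simp only [if_pos hj]
    unfold clp
    rw [if_pos hj]
    norm_num
  · simp only [if_neg hj] at d1 d2 ⊢
    constructor <;> linarith

end fam

section slice

variable {m : ℕ}

/-- The slice at the time `τ`. -/
noncomputable def slc (i₁ : Fin m) (τ : ℝ) (P : MvPolynomial (Fin m) ℝ) :
    MvPolynomial (Fin m) ℝ := bind₁ (fun j => if j = i₁ then C τ else X j) P

theorem eval_slc (i₁ : Fin m) (τ : ℝ) (P : MvPolynomial (Fin m) ℝ) (b : Fin m → ℝ) :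
    eval b (slc i₁ τ P) = eval (fun j => if j = i₁ then τ else b j) P := by
  unfold slc
  rw [eval, eval₂Hom_bind₁]
  congr 1
  congr 1
  funext j
  change eval b (if j = i₁ then C τ else X j) = _
  split_ifs
  · rw [eval_C]
  · rw [eval_X]

/-- The exponent with the entry at `i₁` replaced. -/
noncomputable def rep (i₁ : Fin m) (k : ℕ) (s : Fin m →₀ ℕ) : Fin m →₀ ℕ :=
  Finsupp.update s i₁ k

/-- The univariate polynomial of the coefficients at the exponents `s + k i₁`. -/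
noncomputable def ucf (i₁ : Fin m) (K : ℕ) (s : Fin m →₀ ℕ) (P : MvPolynomial (Fin m) ℝ) :
    Polynomial ℝ := ∑ k ∈ range (K + 1), Polynomial.monomial k (coeff (rep i₁ k s) P)

theorem natDegree_ucf_le (i₁ : Fin m) (K : ℕ) (s : Fin m →₀ ℕ) (P : MvPolynomial (Fin m) ℝ) :
    (ucf i₁ K s P).natDegree ≤ K := by
  unfold ucf
  refine Polynomial.natDegree_sum_le_of_forall_le _ _ fun k hk => ?_
  refine (Polynomial.natDegree_monomial_le _).trans ?_
  rw [Finset.mem_range] at hk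
  omega

theorem coeff_ucf (i₁ : Fin m) {K : ℕ} (s : Fin m →₀ ℕ) (P : MvPolynomial (Fin m) ℝ) {k : ℕ}
    (hk : k ≤ K) : (ucf i₁ K s P).coeff k = coeff (rep i₁ k s) P := by
  unfold ucf
  rw [Polynomial.finsetSum_coeff]
  simp only [Polynomial.coeff_monomial]
  rw [Finset.sum_ite_eq', if_pos (Finset.mem_range.2 (Nat.lt_succ_of_le hk))]

theorem eval_ucf (i₁ : Fin m) (K : ℕ) (s : Fin m →₀ ℕ) (P : MvPolynomial (Fin m) ℝ) (τ : ℝ) :
    (ucf i₁ K s P).eval τ = ∑ k ∈ range (K + 1), coeff (rep i₁ k s) P * τ ^ k := by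
  unfold ucf
  rw [Polynomial.eval_finsetSum]
  simp only [Polynomial.eval_monomial]

/-- The coefficients of the slice. -/
theorem coeff_slc (i₁ : Fin m) {K : ℕ} (τ : ℝ) (P : MvPolynomial (Fin m) ℝ)
    (hP : P.totalDegree ≤ K) (s : Fin m →₀ ℕ) (hs : s i₁ = 0) :
    coeff s (slc i₁ τ P) = ∑ k ∈ range (K + 1), coeff (rep i₁ k s) P * τ ^ k := by
  classical
  have e : slc i₁ τ P = ∑ t ∈ P.support, monomial (rep i₁ 0 t) (coeff t P * τ ^ t i₁) := by
    refine MvPolynomial.funext fun b => ?_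
    rw [eval_slc, map_sum, eval_eq']
    refine Finset.sum_congr rfl fun t _ => ?_
    rw [eval_monomial, Finsupp.prod_fintype _ _ (fun i => pow_zero _), mul_assoc]
    congr 1
    rw [← Finset.mul_prod_erase _ _ (Finset.mem_univ i₁), if_pos rfl]
    congr 1
    rw [← Finset.mul_prod_erase (Finset.univ) (fun i => b i ^ (rep i₁ 0 t) i)
      (Finset.mem_univ i₁)]
    have h1 : (rep i₁ 0 t) i₁ = 0 := by
      unfold rep
      simp
    rw [h1, pow_zero, one_mul]
    refine Finset.prod_congr rfl fun i hi => ?_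
    have h2 : i ≠ i₁ := Finset.ne_of_mem_erase hi
    have h3 : (rep i₁ 0 t) i = t i := by
      unfold rep
      simp [h2]
    rw [if_neg h2, h3]
  rw [e, coeff_sum]
  simp only [coeff_monomial]
  rw [← Finset.sum_filter]
  refine Finset.sum_bij_ne_zero (fun t _ _ => t i₁) (fun t ht h0 => ?_) ?_ ?_ ?_
  · rw [Finset.mem_range]
    have h1 := (monomial_le_degreeOf i₁ (Finset.mem_filter.1 ht).1).trans
      ((degreeOf_le_totalDegree P i₁).trans hP)
    omega
  · intro t ht _ t' ht' _ h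
    have h1 := (Finset.mem_filter.1 ht).2
    have h2 := (Finset.mem_filter.1 ht').2
    ext i
    by_cases hi : i = i₁
    · rw [hi]
      exact h
    · have h3 := DFunLike.congr_fun (h1.trans h2.symm) i
      unfold rep at h3
      simpa [hi] using h3
  · intro k _ h0
    have h1 : coeff (rep i₁ k s) P ≠ 0 := left_ne_zero_of_mul h0
    have h2 : (rep i₁ k s) i₁ = k := by
      unfold rep
      simp
    refine ⟨rep i₁ k s, Finset.mem_filter.2 ⟨mem_support_iff.2 h1, ?_⟩, ?_, h2⟩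
    · ext i
      by_cases hi : i = i₁
      · rw [hi, hs]
        unfold rep
        simp
      · unfold rep
        simp [hi]
    · rw [h2]
      exact h0
  · intro t ht _
    have h1 := (Finset.mem_filter.1 ht).2
    have h2 : rep i₁ (t i₁) s = t := by
      rw [← h1]
      ext i
      by_cases hi : i = i₁
      · rw [hi]
        unfold rep
        simp
      · unfold rep
        simp
    rw [h2]

/-- **(B3)** If the slices at `K + 1` separated times agree up to their constant coefficients, then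
the coefficients which are not pure agree. -/
theorem b3 (i₁ : Fin m) {K k₀ : ℕ} (τ : Fin (K + 1) → ℝ) (hτ : ∀ j, |τ j| ≤ 1)
    (hs : ∀ j j', j ≠ j' → (2 : ℝ) ^ (-(k₀ : ℤ)) ≤ |τ j - τ j'|)
    (P P' : MvPolynomial (Fin m) ℝ) (hP : P.totalDegree ≤ K) (hP' : P'.totalDegree ≤ K)
    (e : ℝ) (h : ∀ j s, s i₁ = 0 → s ≠ 0 →
      |coeff s (slc i₁ (τ j) P) - coeff s (slc i₁ (τ j) P')| ≤ e) (s : Fin m →₀ ℕ)
    (h1 : ¬ Pur i₁ s) :
    |coeff s P - coeff s P'| ≤ (K + 1) * 2 ^ ((k₀ + 1) * K) * e := by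
  set t := rep i₁ 0 s with ht
  have ht0 : t i₁ = 0 := by
    rw [ht]
    unfold rep
    simp
  have htne : t ≠ 0 := by
    intro h0
    apply h1
    intro j hj
    have h2 := DFunLike.congr_fun h0 j
    rw [ht] at h2
    unfold rep at h2
    simpa [hj] using h2
  have hst : rep i₁ (s i₁) t = s := by
    ext i
    by_cases hi : i = i₁
    · rw [hi]
      unfold rep
      simp
    · rw [ht]
      unfold rep
      simp
  have he : 0 ≤ e := le_trans (abs_nonneg _) (h 0 t ht0 htne)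
  by_cases hk : s i₁ ≤ K
  · have h2 : coeff s P - coeff s P' = (ucf i₁ K t P - ucf i₁ K t P').coeff (s i₁) := by
      rw [Polynomial.coeff_sub, coeff_ucf i₁ t P hk, coeff_ucf i₁ t P' hk, hst]
    have hd : (ucf i₁ K t P - ucf i₁ K t P').natDegree ≤ K :=
      (Polynomial.natDegree_sub_le _ _).trans
        (max_le (natDegree_ucf_le _ _ _ _) (natDegree_ucf_le _ _ _ _))
    rw [h2, ← Pool.M5.L48.lag_poly (Pool.M5.L48.sep_injective hs) _ hd]
    refine Pool.M5.L48.lag_le τ _ hτ hs (fun j => ?_) _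
    rw [Polynomial.eval_sub, eval_ucf, eval_ucf, ← coeff_slc i₁ (τ j) P hP t ht0,
      ← coeff_slc i₁ (τ j) P' hP' t ht0]
    exact h j t ht0 htne
  · have h3 : ∀ Q : MvPolynomial (Fin m) ℝ, Q.totalDegree ≤ K → coeff s Q = 0 := by
      intro Q hQ
      by_contra h0
      have := (monomial_le_degreeOf i₁ (mem_support_iff.2 h0)).trans
        ((degreeOf_le_totalDegree Q i₁).trans hQ)
      exact hk this
    rw [h3 P hP, h3 P' hP', sub_self, abs_zero]
    positivity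

/-- The value at the centre depends on the pure coefficients only. -/
theorem eval_centre (i₁ : Fin m) {K : ℕ} (P : MvPolynomial (Fin m) ℝ) (hP : P.totalDegree ≤ K)
    (τ : ℝ) : eval (pnt i₁ 0 0 τ) P =
      ∑ k ∈ range (K + 1), coeff (Finsupp.single i₁ k) P * τ ^ k := by
  have h1 : eval (pnt i₁ 0 0 τ) P = eval (0 : Fin m → ℝ) (slc i₁ τ P) := by
    rw [eval_slc]
    congr 1
    congr 1
    funext j
    unfold pnt
    split_ifs
    · rfl
    · simp
  have h2 : eval (0 : Fin m → ℝ) (slc i₁ τ P) = coeff 0 (slc i₁ τ P) := by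
    rw [← constantCoeff_eq, ← eval_zero]
  rw [h1, h2, coeff_slc i₁ τ P hP 0 rfl]
  refine Finset.sum_congr rfl fun k _ => ?_
  have h3 : rep i₁ k 0 = Finsupp.single i₁ k := by
    ext i
    unfold rep
    by_cases hi : i = i₁
    · rw [hi]
      simp
    · simp [hi]
  rw [h3]

/-- **(B4)** If the pure coefficients of order `1, .., K` and one value at the centre agree, then
the constant coefficients agree. -/
theorem b4 (i₁ : Fin m) {K : ℕ} (P P' : MvPolynomial (Fin m) ℝ) (hP : P.totalDegree ≤ K)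
    (hP' : P'.totalDegree ≤ K) (e : ℝ) (τ : ℝ) (hτ : |τ| ≤ 1)
    (h1 : ∀ k, 1 ≤ k → k ≤ K →
      |coeff (Finsupp.single i₁ k) P - coeff (Finsupp.single i₁ k) P'| ≤ e)
    (h2 : |eval (pnt i₁ 0 0 τ) P - eval (pnt i₁ 0 0 τ) P'| ≤ e) :
    |coeff 0 P - coeff 0 P'| ≤ (K + 1) * e := by
  rw [eval_centre i₁ P hP, eval_centre i₁ P' hP', Finset.sum_range_succ',
    Finset.sum_range_succ'] at h2
  simp only [Finsupp.single_zero, pow_zero, mul_one] at h2
  have h3 : |∑ k ∈ range K, coeff (Finsupp.single i₁ (k + 1)) P * τ ^ (k + 1) -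
      ∑ k ∈ range K, coeff (Finsupp.single i₁ (k + 1)) P' * τ ^ (k + 1)| ≤ K * e := by
    rw [← Finset.sum_sub_distrib]
    refine (Finset.abs_sum_le_sum_abs _ _).trans ?_
    have h4 : ∀ k ∈ range K, |coeff (Finsupp.single i₁ (k + 1)) P * τ ^ (k + 1) -
        coeff (Finsupp.single i₁ (k + 1)) P' * τ ^ (k + 1)| ≤ e := by
      intro k hk
      rw [Finset.mem_range] at hk
      rw [← sub_mul, abs_mul, abs_pow]
      have h5 := h1 (k + 1) (by omega) (by omega)
      calc _ ≤ e * 1 := mul_le_mul h5 (pow_le_one₀ (abs_nonneg _) hτ) (by positivity)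
            (le_trans (abs_nonneg _) h5)
        _ = e := mul_one e
    refine (Finset.sum_le_sum h4).trans (le_of_eq ?_)
    rw [Finset.sum_const, Finset.card_range, nsmul_eq_mul]
  rw [abs_le] at h2 h3 ⊢
  constructor
  · linarith [h2.1, h2.2, h3.1, h3.2]
  · linarith [h2.1, h2.2, h3.1, h3.2]

theorem eval_pup (i₁ : Fin m) {K : ℕ} (P : MvPolynomial (Fin m) ℝ) (hP : P.totalDegree ≤ K)
    (b : Fin m → ℝ) : eval b (pup i₁ P) = eval (pnt i₁ 0 0 (b i₁)) P := by
  have h0 : eval b (pup i₁ P) = eval (pnt i₁ 0 0 (b i₁)) (pup i₁ P) := by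
    refine eval₂Hom_congr' rfl (fun i hi _ => ?_) rfl
    have h1 : i = i₁ := Finset.mem_singleton.1 (vars_pup i₁ P hi)
    rw [h1]
    unfold pnt
    rw [if_pos rfl]
  rw [h0, eval_centre i₁ P hP, eval_centre i₁ _ ((totalDegree_pup_le i₁ P).trans hP)]
  refine Finset.sum_congr rfl fun k _ => ?_
  rw [coeff_pup_pur (pur_single i₁ k)]

/-- **(B5)** The difference to the value at the centre depends on the coefficients which are not
pure only. -/
theorem b5 (m K : ℕ) : ∃ C : ℝ, 0 ≤ C ∧ ∀ (i₁ : Fin m) (P P' : MvPolynomial (Fin m) ℝ) (e : ℝ),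
    P.totalDegree ≤ K → P'.totalDegree ≤ K → 0 ≤ e →
    (∀ s, ¬ Pur i₁ s → |coeff s P - coeff s P'| ≤ e) → ∀ b : Fin m → ℝ, (∀ j, |b j| ≤ 4) →
    |(eval b P - eval (pnt i₁ 0 0 (b i₁)) P) - (eval b P' - eval (pnt i₁ 0 0 (b i₁)) P')| ≤
      C * e := by
  refine ⟨(bx m K).card * 4 ^ (m * K), by positivity, ?_⟩
  intro i₁ P P' e hP hP' he h b hb
  have e1 : (eval b P - eval (pnt i₁ 0 0 (b i₁)) P) -
      (eval b P' - eval (pnt i₁ 0 0 (b i₁)) P') =
      eval b ((P - pup i₁ P) - (P' - pup i₁ P')) := by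
    rw [map_sub, map_sub, map_sub, eval_pup i₁ P hP, eval_pup i₁ P' hP']
  rw [e1]
  refine (eval_bound (D := K) _ ?_ e 4 (by norm_num) (fun s => ?_) b hb).trans (le_of_eq (by ring))
  · refine (totalDegree_sub _ _).trans (max_le ?_ ?_)
    · exact (totalDegree_sub _ _).trans (max_le hP ((totalDegree_pup_le i₁ P).trans hP))
    · exact (totalDegree_sub _ _).trans (max_le hP' ((totalDegree_pup_le i₁ P').trans hP'))
  · rw [coeff_sub, coeff_sub, coeff_sub]
    by_cases hs : Pur i₁ s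
    · rw [coeff_pup_pur hs, coeff_pup_pur hs, sub_self, sub_self, sub_self, abs_zero]
      exact he
    · rw [coeff_pup_not hs, coeff_pup_not hs, sub_zero, sub_zero]
      exact h s hs

end slice

end Pool.M5.Box
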