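import Pool.Agent.H36.M5.DatA

/-!
# Valid data (row DAT of the slope law)

The germs are those of the labels at the thresholds (of the trivial label where the threshold is
trivial). By `uniq_event` they agree for all pairs of radii and windows outside an exponentially
small event. The existence of valid data with given precisions is hereditary, and there are finitely
many functions of precisions at the mesh points: so the data exist on the stable event.
-/

set_option autoImplicit false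

namespace Pool.M5.Dat

open Finset Real MvPolynomial
open Pool.Agent.H49.Ent Pool.Agent.H32.Dense Pool.STK Pool.KA Pool.KSAT Pool.K2S Pool.PB
open Pool.SLF (Dts own Sl Pt)

variable {k J : ℕ}

theorem OK.hered {F : Fam (k + 1) J} {d : Dts F} {i₁ : Fin (k + 1)} {N ρ K : ℕ} {p : ℕ → ℕ → ℕ}
    {A B : F.Ω → Prop} (h : d.OK i₁ N ρ K p A) (hB : Sub B A) : d.OK i₁ N ρ K p B where
  dG := h.dG
  dH := h.dH
  mo := h.mo
  le := h.le
  tr := h.tr
  on a ha ω hω := h.on a ha ω (hB ω hω)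
  g0 a ha ω hω := h.g0 a ha ω (hB ω hω)
  gr a ha ω hω := h.gr a ha ω (hB ω hω)
  tb a ha w hw v h1 h2 ω hω := h.tb a ha w hw v h1 h2 ω (hB ω hω)
  cm a a' h1 h2 ω hω := h.cm a a' h1 h2 ω (hB ω hω)

theorem OK.congr {F : Fam (k + 1) J} {d : Dts F} {i₁ : Fin (k + 1)} {N ρ K : ℕ}
    {p p' : ℕ → ℕ → ℕ} {A : F.Ω → Prop} (h : d.OK i₁ N ρ K p A)
    (hp : ∀ a ≤ ρ, ∀ w ≤ ρ, p' a w = p a w) (hle : ∀ a w, p' a w ≤ ρ) :
    d.OK i₁ N ρ K p' A where
  dG := h.dG
  dH := h.dH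
  mo a a' w w' h1 h2 h3 h4 := by
    rw [hp a (h1.trans h2) w ((h3.trans h4).trans h2), hp a' h2 w' (h4.trans h2)]
    exact h.mo a a' w w' h1 h2 h3 h4
  le := hle
  tr a w h1 h2 := by
    rw [hp a h2 w (h1.trans h2)]
    exact h.tr a w h1 h2
  on a ha ω hω := by
    rw [hp a ha a ha]
    exact h.on a ha ω hω
  g0 := h.g0
  gr := h.gr
  tb a ha w hw v h1 h2 ω hω b hb := by
    rw [hp a ha w (hw.trans ha)]
    exact h.tb a ha w hw v h1 h2 ω hω b hb
  cm a a' h1 h2 ω hω b hb := by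
    rw [hp a (h1.trans h2) a (h1.trans h2)]
    exact h.cm a a' h1 h2 ω hω b hb

/-- The loss of one mesh unit pays for the factor `E`. -/
theorem num1 {E : ℝ} {t u Q : ℕ} (hE1 : 1 ≤ E) (hE : 4 * E ≤ 2 ^ u)
    (hQ : (t - 1) * u + (u - 1) ≤ Q) :
    E / 2 ^ Q ≤ 1 / 2 * (1 / 2 ^ ((t - 1) * u)) ∧ 1 / 2 ^ Q ≤ 1 / 2 * (1 / (2 : ℝ) ^ ((t - 1) * u)) := by
  have hu : 1 ≤ u := by
    by_contra h
    have : u = 0 := by omega
    rw [this] at hE
    norm_num at hE
    linarith only [hE1, hE]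
  have h1 : (2 : ℝ) ^ ((t - 1) * u) * 2 ^ (u - 1) ≤ 2 ^ Q := by
    rw [← pow_add]
    exact pow_le_pow_right₀ (by norm_num) hQ
  have h2 : (2 : ℝ) ^ u = 2 * 2 ^ (u - 1) := by
    rw [← pow_succ']
    congr 1
    omega
  have h3 : (0 : ℝ) < 2 ^ ((t - 1) * u) := by positivity
  have h4 : (0 : ℝ) < 2 ^ Q := by positivity
  have h5 : 2 * E ≤ (2 : ℝ) ^ (u - 1) := by linarith only [hE, h2]
  have key : E / 2 ^ Q ≤ 1 / 2 * (1 / 2 ^ ((t - 1) * u)) := by
    rw [div_le_iff₀ h4]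
    have e : 1 / 2 * (1 / (2 : ℝ) ^ ((t - 1) * u)) * 2 ^ Q =
        2 ^ Q / (2 * 2 ^ ((t - 1) * u)) := by
      field_simp
    rw [e, le_div_iff₀ (by positivity)]
    calc E * (2 * 2 ^ ((t - 1) * u)) = 2 ^ ((t - 1) * u) * (2 * E) := by ring
      _ ≤ 2 ^ ((t - 1) * u) * 2 ^ (u - 1) := mul_le_mul_of_nonneg_left h5 h3.le
      _ ≤ 2 ^ Q := h1
  refine ⟨key, le_trans ?_ key⟩
  exact div_le_div_of_nonneg_right hE1 h4.le

/-- The germ at the sample, for the radius itself. -/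
theorem Germ.one {m J : ℕ} {F : Fam m J} {i₁ : Fin m} {r r' K a P P' : ℕ} {η : ℝ}
    {G G' : (Fin m → ℤ) × (ℕ × F.ζ) → MvPolynomial (Fin m) ℝ} {ω : F.Ω}
    (h : Germ F i₁ r r' K a P P' η G G' ω) {Q : ℕ} (hQ : Q ≤ min P P')
    {b : Fin m → ℝ} (hb : ∀ j, |b j - bp F i₁ ω j| ≤ 1 / 2 ^ a) :
    |eval b (G (ptr F r ω)) - eval b (G' (ptr F r' ω))| ≤ (2 : ℝ) ^ (η * J) / 2 ^ Q := by
  have h1 := h 1 le_rfl b hb
  rw [one_pow, one_mul] at h1
  refine h1.trans ?_
  exact div_le_div_of_nonneg_left (Real.rpow_nonneg (by norm_num) _) (by positivity)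
    (pow_le_pow_right₀ (by norm_num) hQ)

/-- **Valid data from labels whose germs agree.** -/
theorem ok_of_germs (k K : ℕ) : ∃ C : ℝ, 1 ≤ C ∧ ∀ {J : ℕ} (F : Fam (k + 1) J)
    (i₁ : Fin (k + 1)) (N ρ : ℕ) (B : F.Ω → Prop) (T P : ℕ → ℕ → ℕ)
    (G : ℕ → ℕ → Pt F → MvPolynomial (Fin (k + 1)) ℝ)
    (H : ℕ → ℕ → Sl F → MvPolynomial (Fin (k + 1)) ℝ) (η : ℝ),
    ρ ≤ N → (∀ a w, T a w ≤ ρ) →
    (∀ a a' w w', a ≤ a' → w ≤ w' → w' ≤ N → T a w ≤ T a' w') →
    (∀ a w, w ≤ a → a ≤ ρ → a ≤ T a w + 1) →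
    (∀ a w y, (G a w y).totalDegree ≤ K) → (∀ a w s, (H a w s).totalDegree ≤ K) →
    (∀ a w, w ≤ a → a ≤ ρ →
      LabD F i₁ (ρ * (J / N)) K (a * (J / N)) (w * (J / N)) (P a w) (G a w) (H a w) B) →
    (∀ a w, w ≤ a → a ≤ ρ → T a w * (J / N) ≤ P a w) →
    (∀ a w, w ≤ a → a ≤ ρ → a * (J / N) ≤ P a w + 1) →
    (∀ a w, w ≤ a → a ≤ ρ → ∀ ω, B ω → ∀ j,
      |eval (bp F i₁ ω) (pderiv j (G a w (ptr F (ρ * (J / N)) ω)))| ≤
        2 * ((k + 1 : ℕ) : ℝ)) →
    (T 0 0 = 0 → G 0 0 = G0 i₁ (ρ * (J / N))) →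
    (∀ a w a' w', w ≤ a → a ≤ a' → w' ≤ a' → a' ≤ ρ → ∀ ω, B ω →
      Germ F i₁ (ρ * (J / N)) (ρ * (J / N)) K (a' * (J / N)) (P a w) (P a' w') η (G a w)
        (G a' w') ω) →
    (∀ a ≤ ρ, ∀ ω, B ω → Germ F i₁ (ρ * (J / N)) (ρ * (J / N)) K (a * (J / N))
      (P a a) (a * (J / N) - 1) η (G a a) (G0 i₁ (ρ * (J / N))) ω) →
    0 ≤ η → 4 * C * (2 : ℝ) ^ (η * J) ≤ 2 ^ (J / N) →
    ∃ d : Dts F, d.OK i₁ N ρ K (fun a w => T a w - 1) B := by
  obtain ⟨C, hC1, hC⟩ := grad_osc (k + 1) K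
  refine ⟨C, hC1, ?_⟩
  intro J F i₁ N ρ B T P G H η hρN hTle hTmo hTtr hdG hdH hlab hP1 hP2 hgr h0 hgm hg0 hη hEu
  obtain ⟨u, hu⟩ : ∃ u, u = J / N := ⟨_, rfl⟩
  obtain ⟨E, hE⟩ : ∃ E : ℝ, E = (2 : ℝ) ^ (η * J) := ⟨_, rfl⟩
  rw [← hu] at hlab hP1 hP2 hgr h0 hgm hg0 hEu
  rw [← hE] at hEu
  have hE1 : 1 ≤ E := by
    rw [hE]
    exact Real.one_le_rpow (by norm_num) (by positivity)
  have hE4 : 4 * E ≤ 2 ^ u := by
    refine le_trans ?_ hEu
    have : 4 * 1 * E ≤ 4 * C * E := by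
      refine mul_le_mul_of_nonneg_right ?_ (by linarith only [hE1])
      linarith only [hC1]
    linarith only [this]
  have hu1 : 1 ≤ u := by
    by_contra h
    have h' : u = 0 := by omega
    rw [h'] at hE4
    norm_num at hE4
    linarith only [hE1, hE4]
  -- the minimum of the precisions
  have hQ : ∀ a w, w ≤ a → a ≤ ρ → 1 ≤ a → ∀ t, t ≤ T a w →
      (t - 1) * u + (u - 1) ≤ P a w := by
    intro a w hw ha ha1 t ht
    have h1 := hP1 a w hw ha
    have h2 := hP2 a w hw ha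
    rcases Nat.eq_zero_or_pos t with h | h
    · rw [h]
      have h3 : 1 * u ≤ a * u := Nat.mul_le_mul_right _ ha1
      omega
    · have h3 : t * u ≤ T a w * u := Nat.mul_le_mul_right _ ht
      have h4 : t * u = (t - 1) * u + u := by
        rw [← Nat.succ_mul]
        congr 1
        omega
      omega
  exact by
   have hball : ∀ (a a' : ℕ) (x : ℝ), a ≤ a' → |x| ≤ 1 / 2 ^ (a' * u) → |x| ≤ 1 / 2 ^ (a * u) :=
     fun a a' x h hx => hx.trans (inv_mono (Nat.mul_le_mul_right _ h))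
   refine ⟨⟨fun a => G a a, fun a v s => H a (min a (v / u)) (s.1, s.2.1,
     s.2.2 / 2 ^ (v - min a (v / u) * u))⟩, ?_⟩
   have hown : ∀ a ω, own F N ρ ⟨fun a => G a a, fun a v s => H a (min a (v / u)) (s.1, s.2.1,
       s.2.2 / 2 ^ (v - min a (v / u) * u))⟩ a ω = G a a (ptr F (ρ * u) ω) := by
     intro a ω
     unfold own
     rw [hu]
   refine ⟨fun a y => hdG a a y, fun a v s => hdH _ _ _, ?_, ?_, ?_, ?_, ?_, ?_, ?_, ?_⟩
   · -- mo
     intro a a' w w' h1 h2 h3 h4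
     exact Nat.sub_le_sub_right (hTmo a a' w w' h1 h3 (by omega)) 1
   · -- le
     intro a w
     exact (Nat.sub_le _ _).trans (hTle a w)
   · -- tr
     intro a w h1 h2
     have := hTtr a w h1 h2
     change a ≤ T a w - 1 + 2
     omega
   · -- on
     intro a ha ω hω
     rw [hown, ← hu]
     refine ((hlab a a le_rfl ha).2.2 ω hω).1.trans (inv_mono ?_)
     exact le_trans (Nat.mul_le_mul_right _ (Nat.sub_le _ _)) (hP1 a a le_rfl ha)
   · -- g0
     intro a ha ω hω j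
     rw [hown]
     exact hgr a a le_rfl ha ω hω j
   · -- gr
     intro a ha ω hω b hb j
     rw [hown]
     have h1 := hgr a a le_rfl ha ω hω j
     have h2 : |eval b (pderiv j (G a a (ptr F (ρ * u) ω))) -
         eval (bp F i₁ ω) (pderiv j (G a a (ptr F (ρ * u) ω)))| ≤ 1 := by
       have hM : ∀ b' : Fin (k + 1) → ℝ, (∀ j, |b' j - bp F i₁ ω j| ≤ 1 / 2 ^ (a * u)) →
           |eval b' (G a a (ptr F (ρ * u) ω)) - (((F.X (ρ * u) ω i₁ : ℝ) + 1 / 2) /
             2 ^ (ρ * u))| ≤ E / 2 ^ (a * u - 1) := by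
         intro b' hb'
         have h3 := Germ.one (hg0 a ha ω hω) (Q := a * u - 1)
           (le_min (by have := hP2 a a le_rfl ha; omega) le_rfl) hb'
         unfold G0 at h3
         rw [eval_C, ← hE] at h3
         exact h3
       have h4 := hC (G a a (ptr F (ρ * u) ω)) _ (E / 2 ^ (a * u - 1)) (1 / 2 ^ (a * u))
         (1 / 2 ^ u) (bp F i₁ ω) (hdG _ _ _) (by positivity) (by positivity)
         (by rw [div_le_one (by positivity)]; exact one_le_pow₀ (by norm_num))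
         (by positivity) hM b (fun j => by
           have h5 : (1 : ℝ) / 2 ^ u * (1 / 2 ^ (a * u)) = 1 / 2 ^ ((a + 1) * u) := by
             rw [Nat.add_mul, Nat.one_mul, pow_add]
             field_simp
           rw [h5, hu]
           exact hb j) j
       refine h4.trans ?_
       have h5 : (2 : ℝ) ^ (a * u) ≤ 2 * 2 ^ (a * u - 1) := by
         rw [← pow_succ']
         exact pow_le_pow_right₀ (by norm_num) (by omega)
       have h6 : (0 : ℝ) < 2 ^ (a * u - 1) := by positivity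
       have h7 : (0 : ℝ) < 2 ^ u := by positivity
       have h8 : (0 : ℝ) < 2 ^ (a * u) := by positivity
       have e : C * (E / 2 ^ (a * u - 1)) * (1 / 2 ^ u) / (1 / 2 ^ (a * u)) =
           (C * E * 2 ^ (a * u)) / (2 ^ (a * u - 1) * 2 ^ u) := by
         field_simp
       rw [e, div_le_one (by positivity)]
       have h9 : C * E * 2 ^ (a * u) ≤ C * E * (2 * 2 ^ (a * u - 1)) :=
         mul_le_mul_of_nonneg_left h5 (mul_nonneg (by linarith only [hC1]) (by linarith only [hE1]))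
       have h10 : C * E * 2 ≤ 2 ^ u := by nlinarith only [hEu, hE1, hE4]
       calc C * E * 2 ^ (a * u) ≤ C * E * (2 * 2 ^ (a * u - 1)) := h9
         _ = 2 ^ (a * u - 1) * (C * E * 2) := by ring
         _ ≤ 2 ^ (a * u - 1) * 2 ^ u := mul_le_mul_of_nonneg_left h10 h6.le
     have h3 : eval b (pderiv j (G a a (ptr F (ρ * u) ω))) =
         eval (bp F i₁ ω) (pderiv j (G a a (ptr F (ρ * u) ω))) +
         (eval b (pderiv j (G a a (ptr F (ρ * u) ω))) -
           eval (bp F i₁ ω) (pderiv j (G a a (ptr F (ρ * u) ω)))) := by ring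
     rw [h3]
     exact (abs_add_le _ _).trans (add_le_add h1 h2)
   · -- tb
     intro a ha w hw v hv1 hv2 ω hω b hb
     rw [hown]
     rw [← hu] at hv1 hv2 hb ⊢
     obtain ⟨w₀, hw₀⟩ : ∃ w₀, w₀ = min a (v / u) := ⟨_, rfl⟩
     have hw₀a : w₀ ≤ a := by rw [hw₀]; exact min_le_left _ _
     have hw₀v : w₀ * u ≤ v := by
       have h1 : w₀ ≤ v / u := by rw [hw₀]; exact min_le_right _ _
       exact (Nat.mul_le_mul_right _ h1).trans (Nat.div_mul_le_self _ _)
     have hww₀ : w ≤ w₀ := by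
       rw [hw₀]
       exact le_min hw ((Nat.le_div_iff_mul_le (by omega)).2 hv1)
     have hvJ : v ≤ J := by
       refine hv2.trans ((Nat.mul_le_mul_right _ (ha.trans hρN)).trans ?_)
       rw [hu]
       exact Nat.mul_div_le J N
     have hsl : (fun s : Sl F => H a (min a (v / u)) (s.1, s.2.1,
         s.2.2 / 2 ^ (v - min a (v / u) * u))) (slam F v ω) = H a w₀ (slam F (w₀ * u) ω) := by
       simp only
       rw [← hw₀, slam_coarse F hw₀v hvJ ω]
     have hb' : ∀ j, |b j - bp F i₁ ω j| ≤ 1 / 2 ^ (a * u) := fun j =>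
       hball a (a + 1) _ (Nat.le_succ a) (hb j)
     change |eval b (G a a (ptr F (ρ * u) ω)) - eval b ((fun s : Sl F => H a (min a (v / u))
       (s.1, s.2.1, s.2.2 / 2 ^ (v - min a (v / u) * u))) (slam F v ω))| ≤ _
     rw [hsl]
     have h1 := ((hlab a w₀ hw₀a ha).2.2 ω hω).2 b hb'
     have hTw : T a w ≤ T a w₀ := hTmo a a w w₀ le_rfl hww₀ (by omega)
     by_cases hwa : w₀ = a
     · rw [hwa] at h1 hTw ⊢
       refine h1.trans (inv_mono ?_)
       refine le_trans (Nat.mul_le_mul_right _ ?_) (hP1 a a le_rfl ha)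
       omega
     · have ha1 : 1 ≤ a := by omega
       have hq1 := hQ a w₀ hw₀a ha ha1 (T a w) hTw
       have hq2 := hQ a a le_rfl ha ha1 (T a w)
         (hTmo a a w a le_rfl (hww₀.trans hw₀a) (by omega))
       have h2 := Germ.one (hgm a w₀ a a hw₀a le_rfl le_rfl ha ω hω) (le_min hq1 hq2) hb'
       obtain ⟨n1, n2⟩ := num1 (E := E) (t := T a w) (u := u) hE1 hE4 le_rfl
       rw [← hE] at h2
       have h3 := h1.trans (inv_mono hq1)
       have e : eval b (G a a (ptr F (ρ * u) ω)) - eval b (H a w₀ (slam F (w₀ * u) ω)) =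
           (eval b (G a w₀ (ptr F (ρ * u) ω)) - eval b (H a w₀ (slam F (w₀ * u) ω))) -
           (eval b (G a w₀ (ptr F (ρ * u) ω)) - eval b (G a a (ptr F (ρ * u) ω))) := by ring
       rw [e]
       refine (abs_sub _ _).trans ?_
       linarith only [h2, n1, n2, h3]
   · -- cm
     intro a a' haa ha' ω hω b hb
     rw [hown, hown]
     rw [← hu] at hb ⊢
     have hb' : ∀ j, |b j - bp F i₁ ω j| ≤ 1 / 2 ^ (a' * u) := fun j =>
       hball a' (a' + 1) _ (Nat.le_succ a') (hb j)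
     by_cases haeq : a = a'
     · rw [haeq, sub_self, abs_zero]
       positivity
     have ha1' : 1 ≤ a' := by omega
     have hTa : T a a ≤ T a' a' := hTmo a a' a a' haa haa (by omega)
     obtain ⟨n1, n2⟩ := num1 (E := E) (t := T a a) (u := u) hE1 hE4 le_rfl
     have hq2 := hQ a' a' le_rfl ha' ha1' (T a a) hTa
     by_cases hcase : a = 0 ∧ T 0 0 = 0
     · obtain ⟨rfl, hT0⟩ := hcase
       rw [h0 hT0]
       have h2 := Germ.one (hg0 a' ha' ω hω) (Q := (T 0 0 - 1) * u + (u - 1)) (le_min hq2 (by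
         rw [hT0]
         have h3 : 1 * u ≤ a' * u := Nat.mul_le_mul_right _ ha1'
         omega)) hb'
       rw [← hE] at h2
       rw [abs_sub_comm]
       have h4 : (0 : ℝ) ≤ 1 / 2 ^ ((T 0 0 - 1) * u) := by positivity
       linarith only [n1, h2, h4]
     · have hq1 : (T a a - 1) * u + (u - 1) ≤ P a a := by
         rcases Nat.eq_zero_or_pos a with h | h
         · have hT1 : 1 ≤ T a a := by
             rw [h]
             by_contra h5
             exact hcase ⟨h, by omega⟩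
           have h6 := hP1 a a le_rfl (haa.trans ha')
           have h7 : T a a * u = (T a a - 1) * u + u := by
             rw [← Nat.succ_mul]
             congr 1
             omega
           omega
         · exact hQ a a le_rfl (haa.trans ha') h _ le_rfl
       have h2 := Germ.one (hgm a a a' a' le_rfl haa le_rfl ha' ω hω) (le_min hq1 hq2) hb'
       rw [← hE] at h2
       have h4 : (0 : ℝ) ≤ 1 / 2 ^ ((T a a - 1) * u) := by positivity
       linarith only [n1, h2, h4]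

/-- The label at the threshold, or the trivial label. -/
theorem lab_at (F : Fam (k + 1) J) (i₁ : Fin (k + 1)) {N ρ K : ℕ} (A : F.Ω → Prop)
    (hK : 1 ≤ K) (hu : 1 ≤ J / N) (a w : ℕ) :
    ∃ (P : ℕ) (G : Pt F → MvPolynomial (Fin (k + 1)) ℝ)
      (H : Sl F → MvPolynomial (Fin (k + 1)) ℝ),
      (∀ y, (G y).totalDegree ≤ K) ∧ (∀ s, (H s).totalDegree ≤ K) ∧ (w ≤ a → a ≤ ρ →
      LabD F i₁ (ρ * (J / N)) K (a * (J / N)) (w * (J / N)) P G H A ∧
      thrT F i₁ N ρ K A a w * (J / N) ≤ P ∧ a * (J / N) ≤ P + 1 ∧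
      (∀ ω, A ω → ∀ j, |eval (bp F i₁ ω) (pderiv j (G (ptr F (ρ * (J / N)) ω)))| ≤
        2 * ((k + 1 : ℕ) : ℝ)) ∧
      (a = 0 → thrT F i₁ N ρ K A a w = 0 → G = G0 i₁ (ρ * (J / N)))) := by
  by_cases hwa : w ≤ a ∧ a ≤ ρ
  · obtain ⟨hw, ha⟩ := hwa
    by_cases hT : max a 1 ≤ thrT F i₁ N ρ K A a w
    · have h0 : 0 < thrT F i₁ N ρ K A a w := lt_of_lt_of_le (by
        exact lt_of_lt_of_le one_pos (le_max_right a 1)) hT
      obtain ⟨G, H, h1, h2⟩ := (thrT_spec h0).labD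
      refine ⟨_, G, H, h1.1, h1.2.1, fun _ _ => ⟨h1, le_rfl, ?_, h2, fun _ h => ?_⟩⟩
      · have : a * (J / N) ≤ thrT F i₁ N ρ K A a w * (J / N) :=
          Nat.mul_le_mul_right _ ((le_max_left a 1).trans hT)
        omega
      · omega
    · rw [not_le] at hT
      obtain ⟨H, hH⟩ := triv_lab F i₁ (r := ρ * (J / N)) (K := K) (a := a * (J / N))
        (w := w * (J / N)) A hK (by
          have : a * (J / N) ≤ ρ * (J / N) := Nat.mul_le_mul_right _ ha
          omega) (Nat.mul_le_mul_right _ hw)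
      refine ⟨_, _, H, hH.1, hH.2.1, fun _ _ => ⟨hH, ?_, by omega, fun ω _ j => ?_,
        fun _ _ => rfl⟩⟩
      · rcases Nat.eq_zero_or_pos a with h | h
        · have h3 : thrT F i₁ N ρ K A a w = 0 := by
            rw [h] at hT ⊢
            simp only [Nat.zero_le, max_eq_right] at hT
            omega
          rw [h3]
          omega
        · have h3 : thrT F i₁ N ρ K A a w ≤ a - 1 := by
            rw [max_eq_left (by omega : 1 ≤ a)] at hT
            omega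
          have h4 : thrT F i₁ N ρ K A a w * (J / N) ≤ (a - 1) * (J / N) :=
            Nat.mul_le_mul_right _ h3
          have h5 : a * (J / N) = (a - 1) * (J / N) + J / N := by
            rw [← Nat.succ_mul]
            congr 1
            omega
          omega
      · unfold G0
        rw [pderiv_C, map_zero, abs_zero]
        positivity
  · refine ⟨0, fun _ => 0, fun _ => 0, fun _ => ?_, fun _ => ?_, fun h1 h2 =>
      absurd ⟨h1, h2⟩ hwa⟩
    · rw [totalDegree_zero]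
      exact Nat.zero_le _
    · rw [totalDegree_zero]
      exact Nat.zero_le _

/-- The precision function of a code. -/
noncomputable def pcd (ρ : ℕ) (f : Fin (ρ + 1) × Fin (ρ + 1) → Fin (ρ + 1)) (a w : ℕ) : ℕ :=
  if h : a < ρ + 1 ∧ w < ρ + 1 then (f (⟨a, h.1⟩, ⟨w, h.2⟩) : ℕ) else 0

/-- The list of the properties `there are valid data with the precisions of the code`. -/
noncomputable def dlist (k : ℕ) (i₁ : Fin (k + 1)) (N ρ K : ℕ) : PList (k + 1) where
  n := Fintype.card (Fin (ρ + 1) × Fin (ρ + 1) → Fin (ρ + 1))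
  Q := fun J F i A => ∃ d : Dts F, d.OK i₁ N ρ K
    (pcd ρ ((Fintype.equivFin (Fin (ρ + 1) × Fin (ρ + 1) → Fin (ρ + 1))).symm i)) A
  her := by
    rintro J F i A B hB ⟨d, hd⟩
    exact ⟨d, OK.hered hd hB⟩

theorem exp_small {κ n : ℝ} (hκ : 0 < κ) (hn : 0 < n) : ∃ J₁ : ℕ, ∀ J : ℕ, J₁ ≤ J →
    Real.exp (-(κ * J)) ≤ n := by
  obtain ⟨J₁, hJ₁⟩ := exists_nat_ge (-Real.log n / κ)
  refine ⟨J₁, fun J hJ => ?_⟩
  rw [← Real.exp_log hn]
  refine Real.exp_le_exp.2 ?_
  have h1 : -Real.log n / κ ≤ J := hJ₁.trans (by exact_mod_cast hJ)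
  rw [div_le_iff₀ hκ] at h1
  linarith only [h1]

/-- **Row DAT.** -/
theorem dat_thm {k : ℕ} {S : FCl (k + 1)} (hS : SPS S (k - 1)) : Pool.SLF.DAT S := by
  classical
  intro c h₁ X K hc hh hX hK
  refine ⟨1, fun N hN i₁ ρ hρ => ?_⟩
  obtain ⟨C, hC1, hC⟩ := ok_of_germs k K
  have hN0 : (0 : ℝ) < N := by exact_mod_cast hN
  have hρN : ρ ≤ N := by
    have : (ρ : ℝ) ≤ N := by nlinarith only [hρ, hX]
    exact_mod_cast this
  obtain ⟨η, hη⟩ : ∃ η : ℝ, η = 1 / (4 * N) := ⟨_, rfl⟩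
  have hη0 : 0 < η := by rw [hη]; positivity
  have hS' : SPS S (k + 1 - 2) := by
    have : k + 1 - 2 = k - 1 := by omega
    rw [this]
    exact hS
  obtain ⟨κ₀, hκ₀, hU⟩ := uniq_event (m := k + 1) hS' K hh hX hη0
  -- the number of comparisons
  obtain ⟨ι, hι⟩ : ∃ ι : Type, ι = (((Fin (ρ + 1) × Fin (ρ + 1)) × (Fin (ρ + 1) × Fin (ρ + 1))) ⊕
    Fin (ρ + 1)) := ⟨_, rfl⟩
  obtain ⟨nC, hnC⟩ : ∃ nC : ℕ, 4 * C ≤ 2 ^ nC := by
    obtain ⟨n, hn⟩ := pow_unbounded_of_one_lt (4 * C) (one_lt_two : (1 : ℝ) < 2)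
    exact ⟨n, hn.le⟩
  have hcard : (0 : ℝ) < (Fintype.card (((Fin (ρ + 1) × Fin (ρ + 1)) ×
      (Fin (ρ + 1) × Fin (ρ + 1))) ⊕ Fin (ρ + 1)) : ℝ) := by
    have : 0 < Fintype.card (((Fin (ρ + 1) × Fin (ρ + 1)) × (Fin (ρ + 1) × Fin (ρ + 1))) ⊕
        Fin (ρ + 1)) := Fintype.card_pos_iff.2 ⟨Sum.inr 0⟩
    exact_mod_cast this
  obtain ⟨J₂, hJ₂⟩ := exp_small (n := 1 / (2 * (Fintype.card (((Fin (ρ + 1) × Fin (ρ + 1)) ×
      (Fin (ρ + 1) × Fin (ρ + 1))) ⊕ Fin (ρ + 1)) : ℝ))) hκ₀ (by positivity)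
  refine Clg.step (dlist k i₁ N ρ K) fun κ hκ => ?_
  obtain ⟨J₃, hJ₃⟩ := exp_small (n := (1 : ℝ) / 2) hκ (by norm_num)
  exact by
   refine Clg.mono (J₂ := max (max J₂ J₃) (4 * N * (nC + 2))) hU ?_
   intro J hJ F A hUA hSb hCh _
   have hp := F.isLaw
   have hJ2 : J₂ ≤ J := ((le_max_left _ _).trans (le_max_left _ _)).trans hJ
   have hJ3 : J₃ ≤ J := ((le_max_right _ _).trans (le_max_left _ _)).trans hJ
   have hJ4 : 4 * N * (nC + 2) ≤ J := (le_max_right _ _).trans hJ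
   -- the mesh unit
   have huJ : ((J / N : ℕ) : ℝ) * N ≤ J := by exact_mod_cast Nat.div_mul_le_self J N
   have huJ' : (J : ℝ) ≤ ((J / N : ℕ) : ℝ) * N + N := by
     have := Nat.lt_div_mul_add (a := J) (b := N) (by omega)
     exact_mod_cast this.le
   have hJ4' : (4 : ℝ) * N * (nC + 2) ≤ J := by exact_mod_cast hJ4
   have hηJ : η * J * 4 * N = J := by
     rw [hη]
     field_simp
   have hexpo : η * J + nC ≤ ((J / N : ℕ) : ℝ) := by
     have h1 : (η * J + nC) * N ≤ ((J / N : ℕ) : ℝ) * N := by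
       have h2 : η * J * N = J / 4 := by linarith only [hηJ]
       have h3 : (0 : ℝ) ≤ nC := Nat.cast_nonneg _
       nlinarith only [hN0, huJ', hJ4', hηJ]
     exact le_of_mul_le_mul_right h1 hN0
   have hE : 4 * C * (2 : ℝ) ^ (η * (J : ℝ)) ≤ 2 ^ (J / N) := by
     have h1 : (2 : ℝ) ^ (J / N) = (2 : ℝ) ^ (((J / N : ℕ) : ℝ)) := (Real.rpow_natCast 2 _).symm
     rw [h1]
     calc 4 * C * (2 : ℝ) ^ (η * (J : ℝ)) ≤ 2 ^ nC * (2 : ℝ) ^ (η * (J : ℝ)) :=
           mul_le_mul_of_nonneg_right hnC (Real.rpow_nonneg (by norm_num) _)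
       _ = (2 : ℝ) ^ (η * J + nC) := by
           rw [Real.rpow_add (by norm_num), Real.rpow_natCast]
           ring
       _ ≤ _ := Real.rpow_le_rpow_of_exponent_le (by norm_num) hexpo
   exact by
    have hu1 : 1 ≤ J / N := by
      have h2 : 1 * N ≤ J := by
        have h3 : N * 1 ≤ N * (4 * (nC + 2)) := Nat.mul_le_mul_left _ (by omega)
        calc 1 * N = N * 1 := mul_comm _ _
          _ ≤ N * (4 * (nC + 2)) := h3
          _ = 4 * N * (nC + 2) := by ring
          _ ≤ J := hJ4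
      exact (Nat.le_div_iff_mul_le (by omega)).2 h2
    have haJ : ∀ a, a ≤ ρ → ((a * (J / N) : ℕ) : ℝ) + X * J ≤ J := by
      intro a ha
      push_cast
      have h1 : (a : ℝ) ≤ ρ := by exact_mod_cast ha
      have h2 : (a : ℝ) * ((J / N : ℕ) : ℝ) ≤ ρ * ((J / N : ℕ) : ℝ) :=
        mul_le_mul_of_nonneg_right h1 (Nat.cast_nonneg _)
      have h3 : ((J / N : ℕ) : ℝ) ≤ J / N := by
        rw [le_div_iff₀ hN0]
        exact huJ
      have h4 : (ρ : ℝ) * ((J / N : ℕ) : ℝ) ≤ ρ * (J / N) :=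
        mul_le_mul_of_nonneg_left h3 (Nat.cast_nonneg _)
      have h5 : (ρ : ℝ) * (J / N) ≤ (N - X * N) * (J / N) :=
        mul_le_mul_of_nonneg_right (by linarith only [hρ]) (by positivity)
      have h6 : ((N : ℝ) - X * N) * (J / N) = J - X * J := by
        field_simp
      linarith only [h2, h4, h5, h6]
    have hρJ : ρ * (J / N) ≤ J := (Nat.mul_le_mul_right _ hρN).trans (Nat.mul_div_le J N)
    -- the labels
    choose P G H hdG hdH hlab using fun a w => lab_at (N := N) (ρ := ρ) (K := K) F i₁ A hK hu1 a w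
    -- the comparisons
    obtain ⟨Qc, hQc⟩ : ∃ Qc : (((Fin (ρ + 1) × Fin (ρ + 1)) × (Fin (ρ + 1) × Fin (ρ + 1))) ⊕
        Fin (ρ + 1)) → F.Ω → Prop, Qc = fun i ω => match i with
      | Sum.inl z => (z.1.2 : ℕ) ≤ z.1.1 → (z.1.1 : ℕ) ≤ z.2.1 → (z.2.2 : ℕ) ≤ z.2.1 →
        Germ F i₁ (ρ * (J / N)) (ρ * (J / N)) K ((z.2.1 : ℕ) * (J / N)) (P z.1.1 z.1.2)
          (P z.2.1 z.2.2) η (G z.1.1 z.1.2) (G z.2.1 z.2.2) ω
      | Sum.inr a => Germ F i₁ (ρ * (J / N)) (ρ * (J / N)) K ((a : ℕ) * (J / N)) (P a a)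
          ((a : ℕ) * (J / N) - 1) η (G a a) (G0 i₁ (ρ * (J / N))) ω := ⟨_, rfl⟩
    exact by
     have hQs : ∀ i, Pe F.p (fun ω => A ω ∧ ¬ Qc i ω) ≤ Real.exp (-(κ₀ * J)) * Pe F.p A := by
       intro i
       rcases i with z | a
       · by_cases hz : (z.1.2 : ℕ) ≤ z.1.1 ∧ (z.1.1 : ℕ) ≤ z.2.1 ∧ (z.2.2 : ℕ) ≤ z.2.1
         · obtain ⟨z1, z2, z3⟩ := hz
           have ha : (z.2.1 : ℕ) ≤ ρ := Nat.lt_succ_iff.1 z.2.1.2
           have l1 := (hlab z.1.1 z.1.2 z1 (z2.trans ha)).1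
           have l2 := (hlab z.2.1 z.2.2 z3 ha).1
           have l1' : LabD F i₁ (ρ * (J / N)) K ((z.2.1 : ℕ) * (J / N)) ((z.1.2 : ℕ) * (J / N))
               (P z.1.1 z.1.2) (G z.1.1 z.1.2) (H z.1.1 z.1.2) A :=
             ⟨l1.1, l1.2.1, fun ω hω => ⟨(l1.2.2 ω hω).1, fun b hb => (l1.2.2 ω hω).2 b fun j =>
               (hb j).trans (inv_mono (Nat.mul_le_mul_right _ z2))⟩⟩
           have h1 := hUA i₁ hCh A (fun _ h => h) _ _ ((z.2.1 : ℕ) * (J / N)) _ _ _ _ _ _ _ _ hρJ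
             hρJ (Nat.mul_le_mul_right _ (z1.trans z2)) (Nat.mul_le_mul_right _ z3) (haJ _ ha)
             l1' l2
           refine le_trans (Pe_mono hp fun ω hω => ⟨hω.1, fun hg => hω.2 ?_⟩) h1.le
           rw [hQc]
           exact fun _ _ _ => hg
         · have h2 : Pe F.p (fun ω => A ω ∧ ¬ Qc (Sum.inl z) ω) = 0 := by
             rw [Pe_eq]
             refine Finset.sum_eq_zero fun ω _ => ?_
             rw [if_neg]
             rintro ⟨_, h3⟩
             rw [hQc] at h3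
             exact h3 fun y1 y2 y3 => absurd ⟨y1, y2, y3⟩ hz
           rw [h2]
           exact mul_nonneg (Real.exp_pos _).le (Pe_nonneg hp A)
       · have ha : (a : ℕ) ≤ ρ := Nat.lt_succ_iff.1 a.2
         have l1 := (hlab a a le_rfl ha).1
         obtain ⟨H₀, l2⟩ := triv_lab F i₁ (r := ρ * (J / N)) (K := K) (a := (a : ℕ) * (J / N))
           (w := (a : ℕ) * (J / N)) A hK (by
             have : (a : ℕ) * (J / N) ≤ ρ * (J / N) := Nat.mul_le_mul_right _ ha
             omega) le_rfl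
         have h1 := hUA i₁ hCh A (fun _ h => h) _ _ ((a : ℕ) * (J / N)) _ _ _ _ _ _ _ _ hρJ
           hρJ le_rfl le_rfl (haJ _ ha) l1 l2
         refine le_trans (Pe_mono hp fun ω hω => ⟨hω.1, fun hg => hω.2 ?_⟩) h1.le
         rw [hQc]
         exact hg
     exact by
      have hun := union_le hp A Qc _ hQs
      obtain ⟨B, hB⟩ : ∃ B : F.Ω → Prop, B = fun ω => A ω ∧ ∀ i, Qc i ω := ⟨_, rfl⟩
      rw [← hB] at hun
      have hBA : Sub B A := by
        rw [hB]
        exact fun ω h => h.1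
      have hBP : Real.exp (-(κ * J)) * Pe F.p A ≤ Pe F.p B := by
        refine le_trans ?_ hun
        refine mul_le_mul_of_nonneg_right ?_ (Pe_nonneg hp A)
        have h1 := hJ₃ J hJ3
        have h2 := hJ₂ J hJ2
        have h3 := mul_le_mul_of_nonneg_left h2 hcard.le
        have h4 : (Fintype.card (((Fin (ρ + 1) × Fin (ρ + 1)) × (Fin (ρ + 1) × Fin (ρ + 1))) ⊕
            Fin (ρ + 1)) : ℝ) * (1 / (2 * (Fintype.card (((Fin (ρ + 1) × Fin (ρ + 1)) ×
            (Fin (ρ + 1) × Fin (ρ + 1))) ⊕ Fin (ρ + 1)) : ℝ))) = 1 / 2 := by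
          field_simp
        linarith only [h1, h3, h4]
      -- the data on `B`
      obtain ⟨T, hT⟩ : ∃ T : ℕ → ℕ → ℕ, T = fun a w => thrT F i₁ N ρ K A a w := ⟨_, rfl⟩
      have hTle : ∀ a w, T a w ≤ ρ := fun a w => by rw [hT]; exact thrT_le a w
      have hex : ∃ d : Dts F, d.OK i₁ N ρ K (fun a w => T a w - 1) B := by
        refine hC F i₁ N ρ B T P G H η hρN hTle ?_ ?_ hdG hdH ?_ ?_ ?_ ?_ ?_ ?_ ?_ hη0.le hE
        · intro a a' w w' h1 h2 h3
          rw [hT]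
          exact thrT_mono h1 h2 h3
        · intro a w h1 h2
          rcases Nat.eq_zero_or_pos a with h | h
          · omega
          · obtain ⟨H₀, l⟩ := triv_lab F i₁ (r := ρ * (J / N)) (K := K) (a := a * (J / N))
              (w := w * (J / N)) A hK (by
                have : a * (J / N) ≤ ρ * (J / N) := Nat.mul_le_mul_right _ h2
                omega) (Nat.mul_le_mul_right _ h1)
            have h3 : Tb F i₁ (ρ * (J / N)) K (a * (J / N)) (w * (J / N)) ((a - 1) * (J / N)) A := by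
              have h4 : (a - 1) * (J / N) ≤ a * (J / N) - 1 := by
                have h5 : a * (J / N) = (a - 1) * (J / N) + J / N := by
                  rw [← Nat.succ_mul]
                  congr 1
                  omega
                omega
              refine Tb.mono le_rfl le_rfl le_rfl le_rfl ?_ h4 (l.tb fun ω _ j => ?_)
              · exact ((Nat.mul_le_mul_right _ ((h1.trans h2).trans hρN))).trans
                  (Nat.mul_div_le J N)
              · unfold G0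
                rw [pderiv_C, map_zero, abs_zero]
                positivity
            have h4 : a - 1 ≤ T a w := by
              rw [hT]
              exact le_thrT (by omega) h3
            omega
        · exact fun a w h1 h2 => (hlab a w h1 h2).1.hered hBA
        · intro a w h1 h2
          rw [hT]
          exact (hlab a w h1 h2).2.1
        · exact fun a w h1 h2 => (hlab a w h1 h2).2.2.1
        · exact fun a w h1 h2 ω hω => (hlab a w h1 h2).2.2.2.1 ω (hBA ω hω)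
        · intro h0
          rw [hT] at h0
          exact (hlab 0 0 le_rfl (Nat.zero_le _)).2.2.2.2 rfl h0
        · intro a w a' w' h1 h2 h3 h4 ω hω
          rw [hB] at hω
          have h5 := hω.2 (Sum.inl ((⟨a, by omega⟩, ⟨w, by omega⟩), (⟨a', by omega⟩, ⟨w', by omega⟩)))
          rw [hQc] at h5
          exact h5 h1 h2 h3
        · intro a h1 ω hω
          rw [hB] at hω
          have h5 := hω.2 (Sum.inr ⟨a, by omega⟩)
          rw [hQc] at h5
          exact h5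
      -- the code of the precisions
      exact by
       obtain ⟨f, hf⟩ : ∃ f : Fin (ρ + 1) × Fin (ρ + 1) → Fin (ρ + 1), ∀ z, (f z : ℕ) =
           T z.1 z.2 - 1 := ⟨fun z => ⟨T z.1 z.2 - 1, by have := hTle z.1 z.2; omega⟩, fun _ => rfl⟩
       have hpf : ∀ a ≤ ρ, ∀ w ≤ ρ, pcd ρ f a w = T a w - 1 := by
         intro a ha w hw
         unfold pcd
         rw [dif_pos ⟨by omega, by omega⟩, hf]
       have hpf' : ∀ a w, pcd ρ f a w ≤ ρ := by
         intro a w
         unfold pcd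
         split_ifs with h
         · exact Nat.lt_succ_iff.1 (f _).2
         · exact Nat.zero_le _
       obtain ⟨i, hi⟩ : ∃ i, (Fintype.equivFin (Fin (ρ + 1) × Fin (ρ + 1) → Fin (ρ + 1))).symm i = f :=
         ⟨(Fintype.equivFin (Fin (ρ + 1) × Fin (ρ + 1) → Fin (ρ + 1))) f, Equiv.symm_apply_apply _ _⟩
       have hQB : (dlist k i₁ N ρ K).Q J F i B := by
         obtain ⟨d, hd⟩ := hex
         refine ⟨d, ?_⟩
         rw [hi]
         exact OK.congr hd hpf hpf'
       obtain ⟨d, hd⟩ := (hSb i).of_sub hBA hBP hQB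
       rw [hi] at hd
       refine ⟨d, ?_⟩
       have h1 : d.OK i₁ N ρ K (fun a w => T a w - 1) A :=
         OK.congr hd (fun a ha w hw => (hpf a ha w hw).symm) fun a w =>
           (Nat.sub_le _ _).trans (hTle a w)
       rw [hT] at h1
       exact h1

end Pool.M5.Dat
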