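import Pool.Agent.H71.SLP.Stmts
import Pool.Agent.H29.PB.Uniq
import Pool.Agent.H62.OVN.Ovc
import Pool.Agent.H36.KBX.Coef

/-!
# Valid data: oscillation of the gradient, the trivial label, a union bound
-/

set_option autoImplicit false

namespace Pool.M5.Dat

open Finset Real MvPolynomial
open Pool.Agent.H49.Ent Pool.Agent.H32.Dense Pool.STK Pool.KA Pool.KSAT Pool.K2S Pool.PB
open Pool.Agent.H36.KBX (der_bound)

/-- The oscillation of the gradient on a smaller ball. -/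
theorem grad_osc (n K : ℕ) : ∃ C : ℝ, 1 ≤ C ∧ ∀ (P : MvPolynomial (Fin n) ℝ) (c M r θ : ℝ)
    (y : Fin n → ℝ), P.totalDegree ≤ K → 0 < r → 0 ≤ θ → θ ≤ 1 → 0 ≤ M →
    (∀ b : Fin n → ℝ, (∀ j, |b j - y j| ≤ r) → |eval b P - c| ≤ M) →
    ∀ b : Fin n → ℝ, (∀ j, |b j - y j| ≤ θ * r) → ∀ j,
      |eval b (pderiv j P) - eval y (pderiv j P)| ≤ C * M * θ / r := by
  obtain ⟨C, hC0, hC⟩ := der_bound n K
  refine ⟨n * C + 1, by
    have : (0 : ℝ) ≤ n * C := by positivity
    linarith, ?_⟩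
  intro P c M r θ y hP hr hθ0 hθ1 hM0 hM b hb j
  set Q : MvPolynomial (Fin n) ℝ := Pool.KST.shA (P - MvPolynomial.C c) (fun _ => r) y with hQ
  have hPc : (P - MvPolynomial.C c).totalDegree ≤ K :=
    (totalDegree_sub _ _).trans (max_le hP (by rw [totalDegree_C]; exact Nat.zero_le _))
  have hQd : Q.totalDegree ≤ K := (Pool.KST.totalDegree_shA_le _ _ _).trans hPc
  have hQM : ∀ u : Fin n → ℝ, (∀ i, |u i| ≤ 1) → |eval u Q| ≤ M := by
    intro u hu
    rw [hQ, Pool.KST.eval_shA, map_sub, eval_C]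
    refine hM _ fun i => ?_
    rw [add_sub_cancel_left, abs_mul, abs_of_pos hr]
    exact mul_le_of_le_one_right hr.le (hu i)
  have hder := hC Q M hQd hQM
  set v : Fin n → ℝ := fun i => (b i - y i) / r with hv
  have hvθ : ∀ i, |v i| ≤ θ := by
    intro i
    rw [hv]
    simp only
    rw [abs_div, abs_of_pos hr, div_le_iff₀ hr]
    exact hb i
  have h1 := Pool.OVN.eval_sub_le (pderiv j Q) (fun _ => (0 : ℝ)) v (M := C * M) (δ := θ)
    (by positivity) (fun s hs0 hs1 i => ?_) hvθ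
  · have e1 : eval (fun i => (fun _ => (0 : ℝ)) i + v i) (pderiv j Q) =
        r * eval b (pderiv j P) := by
      rw [hQ, Pool.OVN.eval_pderiv_shA]
      congr 1
      rw [map_sub, pderiv_C, sub_zero]
      congr 1
      congr 1
      funext i
      rw [hv]
      simp only [zero_add]
      field_simp
      ring
    have e2 : eval (fun _ => (0 : ℝ)) (pderiv j Q) = r * eval y (pderiv j P) := by
      rw [hQ, Pool.OVN.eval_pderiv_shA]
      congr 1
      rw [map_sub, pderiv_C, sub_zero]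
      congr 1
      congr 1
      funext i
      simp
    rw [e1, e2, ← mul_sub, abs_mul, abs_of_pos hr, Fintype.card_fin] at h1
    rw [le_div_iff₀ hr, mul_comm]
    refine h1.trans ?_
    have : 0 ≤ M * θ := mul_nonneg hM0 hθ0
    calc (n : ℝ) * (C * M * θ) = n * C * (M * θ) := by ring
      _ ≤ (n * C + 1) * (M * θ) := mul_le_mul_of_nonneg_right (by linarith) this
      _ = _ := by ring
  · refine (hder _ fun l => ?_).2.2 i j
    simp only [zero_add]
    rw [abs_mul, abs_of_nonneg hs0]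
    have := hvθ l
    have h2 : s * |v l| ≤ 1 * 1 := mul_le_mul hs1 (this.trans hθ1) (abs_nonneg _) zero_le_one
    linarith

section triv

variable {m J : ℕ}

/-- The germ of the trivial label: the passive coordinate of the point. -/
noncomputable def G0 {ζ : Type} (i₁ : Fin m) (r : ℕ) (y : (Fin m → ℤ) × (ℕ × ζ)) :
    MvPolynomial (Fin m) ℝ := C (((y.1 i₁ : ℝ) + 1 / 2) / 2 ^ r)

theorem G0_near (F : Fam m J) (i₁ : Fin m) (r : ℕ) (ω : F.Ω) (b : Fin m → ℝ) :
    |F.x ω i₁ - eval b (G0 i₁ r (ptr F r ω))| ≤ 1 / 2 ^ (r + 1) := by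
  unfold G0 ptr
  rw [eval_C]
  have h2 : (0 : ℝ) < 2 ^ r := by positivity
  have h3 : (F.X r ω i₁ : ℝ) ≤ 2 ^ r * F.x ω i₁ := by
    have := Int.floor_le ((2 : ℝ) ^ r * F.x ω i₁)
    exact this
  have h4 : 2 ^ r * F.x ω i₁ < (F.X r ω i₁ : ℝ) + 1 := by
    have := Int.lt_floor_add_one ((2 : ℝ) ^ r * F.x ω i₁)
    exact this
  have e : F.x ω i₁ - ((F.X r ω i₁ : ℝ) + 1 / 2) / 2 ^ r =
      (2 ^ r * F.x ω i₁ - (F.X r ω i₁ + 1 / 2)) / 2 ^ r := by
    field_simp
  rw [e, abs_div, abs_of_pos h2, pow_succ, div_le_div_iff₀ h2 (by positivity)]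
  have h5 : |2 ^ r * F.x ω i₁ - ((F.X r ω i₁ : ℝ) + 1 / 2)| ≤ 1 / 2 := by
    rw [abs_le]
    constructor <;> linarith
  calc |2 ^ r * F.x ω i₁ - ((F.X r ω i₁ : ℝ) + 1 / 2)| * (2 ^ r * 2) ≤
        1 / 2 * (2 ^ r * 2) := mul_le_mul_of_nonneg_right h5 (by positivity)
    _ = 1 * 2 ^ r := by ring

theorem F_t_mem (F : Fam m J) (ω : F.Ω) : 0 ≤ F.t ω ∧ F.t ω ≤ 1 := by
  unfold Fam.t
  have h := F.tim ω
  have h1 : (F.T ω : ℝ) ≤ 2 ^ J := by exact_mod_cast h.le
  exact ⟨by positivity, by rw [div_le_one (by positivity)]; exact h1⟩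

/-- **The trivial label**, of precision `a - 1` for the radius `a`. -/
theorem triv_lab (F : Fam m J) (i₁ : Fin m) {r K a w : ℕ} (A : F.Ω → Prop) (hK : 1 ≤ K)
    (hr : a ≤ r + 1) (hw : w ≤ a) :
    ∃ H, LabD F i₁ r K a w (a - 1) (G0 i₁ r) H A := by
  have hd0 : ∀ y : (Fin m → ℤ) × (ℕ × F.ζ), (G0 i₁ r y).totalDegree ≤ K := by
    intro y
    unfold G0
    rw [totalDegree_C]
    exact Nat.zero_le _
  have hon : ∀ ω, |F.x ω i₁ - eval (bp F i₁ ω) (G0 i₁ r (ptr F r ω))| ≤ 1 / 2 ^ (a - 1) :=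
    fun ω => (G0_near F i₁ r ω _).trans (inv_mono (by omega))
  rcases Nat.eq_zero_or_pos a with ha | ha
  · have hw0 : w = 0 := by omega
    refine ⟨fun s => C (s.1.1 i₁ + 1 / 2 * s.1.2 i₁), hd0, fun s => ?_, fun ω _ =>
      ⟨hon ω, fun b _ => ?_⟩⟩
    · rw [totalDegree_C]
      exact Nat.zero_le _
    · rw [eval_C]
      have h1 := G0_near F i₁ r ω b
      have h2 : (1 : ℝ) / 2 ^ (r + 1) ≤ 1 / 2 := by
        have := inv_mono (P := r + 1) (P' := 1) (by omega)
        simpa using this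
      have h3 : |F.x ω i₁ - (F.u ω i₁ + 1 / 2 * F.d ω i₁)| ≤ 1 / 2 := by
        have e : F.x ω i₁ - (F.u ω i₁ + 1 / 2 * F.d ω i₁) = (F.t ω - 1 / 2) * F.d ω i₁ := by
          unfold Fam.x
          ring
        rw [e, abs_mul]
        obtain ⟨t1, t2⟩ := F_t_mem F ω
        have h4 : |F.t ω - 1 / 2| ≤ 1 / 2 := by
          rw [abs_le]
          constructor <;> linarith
        calc |F.t ω - 1 / 2| * |F.d ω i₁| ≤ 1 / 2 * 1 :=
              mul_le_mul h4 (F.dir ω i₁) (abs_nonneg _) (by norm_num)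
          _ = 1 / 2 := by norm_num
      have h5 : (1 : ℝ) / 2 ^ (a - 1) = 1 := by rw [ha]; norm_num
      rw [h5]
      have e : eval b (G0 i₁ r (ptr F r ω)) - (F.u ω i₁ + 1 / 2 * F.d ω i₁) =
          (F.x ω i₁ - (F.u ω i₁ + 1 / 2 * F.d ω i₁)) -
            (F.x ω i₁ - eval b (G0 i₁ r (ptr F r ω))) := by ring
      change |eval b (G0 i₁ r (ptr F r ω)) - (F.u ω i₁ + 1 / 2 * F.d ω i₁)| ≤ 1
      rw [e]
      refine (abs_sub _ _).trans ?_
      linarith
  · refine ⟨fun s => C (s.1.1 i₁) + C (s.1.2 i₁) * X i₁, hd0, fun s => ?_, fun ω _ =>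
      ⟨hon ω, fun b hb => ?_⟩⟩
    · refine (totalDegree_add _ _).trans (max_le ?_ ?_)
      · rw [totalDegree_C]
        exact Nat.zero_le _
      · refine (totalDegree_mul _ _).trans ?_
        rw [totalDegree_C, totalDegree_X]
        omega
    · have h1 := G0_near F i₁ r ω b
      have h2 : (1 : ℝ) / 2 ^ (r + 1) ≤ 1 / 2 ^ a := inv_mono hr
      have h3 : |F.x ω i₁ - (F.u ω i₁ + F.d ω i₁ * b i₁)| ≤ 1 / 2 ^ a := by
        have e : F.x ω i₁ - (F.u ω i₁ + F.d ω i₁ * b i₁) = -((b i₁ - F.t ω) * F.d ω i₁) := by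
          unfold Fam.x
          ring
        rw [e, abs_neg, abs_mul]
        have h4 := hb i₁
        have h5 : bp F i₁ ω i₁ = F.t ω := by
          unfold bp
          rw [Function.update_self]
        rw [h5] at h4
        calc |b i₁ - F.t ω| * |F.d ω i₁| ≤ 1 / 2 ^ a * 1 :=
              mul_le_mul h4 (F.dir ω i₁) (abs_nonneg _) (by positivity)
          _ = 1 / 2 ^ a := mul_one _
      have h5 : (1 : ℝ) / 2 ^ (a - 1) = 1 / 2 ^ a + 1 / 2 ^ a := by
        obtain ⟨a', rfl⟩ : ∃ a', a = a' + 1 := ⟨a - 1, by omega⟩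
        rw [Nat.add_sub_cancel, pow_succ]
        field_simp
        norm_num
      rw [h5]
      have e0 : eval b (C ((slam F w ω).1.1 i₁) + C ((slam F w ω).1.2 i₁) * X i₁) =
          F.u ω i₁ + F.d ω i₁ * b i₁ := by
        rw [map_add, map_mul, eval_C, eval_C, eval_X]
        rfl
      rw [e0]
      have e : eval b (G0 i₁ r (ptr F r ω)) - (F.u ω i₁ + F.d ω i₁ * b i₁) =
          (F.x ω i₁ - (F.u ω i₁ + F.d ω i₁ * b i₁)) -
            (F.x ω i₁ - eval b (G0 i₁ r (ptr F r ω))) := by ring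
      rw [e]
      refine (abs_sub _ _).trans ?_
      linarith

end triv

section union

variable {Ω : Type} [Fintype Ω]

open Classical in
/-- A union bound for finitely many small exceptional events. -/
theorem union_le {p : Ω → ℝ} (hp : IsLaw p) {ι : Type} [Fintype ι] (A : Ω → Prop)
    (Q : ι → Ω → Prop) (δ : ℝ) (h : ∀ i, Pe p (fun ω => A ω ∧ ¬ Q i ω) ≤ δ * Pe p A) :
    (1 - Fintype.card ι * δ) * Pe p A ≤ Pe p (fun ω => A ω ∧ ∀ i, Q i ω) := by
  have h1 : Pe p A ≤ Pe p (fun ω => A ω ∧ ∀ i, Q i ω) +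
      ∑ i, Pe p (fun ω => A ω ∧ ¬ Q i ω) := by
    rw [Pe_eq, Pe_eq]
    have e : ∑ i, Pe p (fun ω => A ω ∧ ¬ Q i ω) =
        ∑ ω, ∑ i, if A ω ∧ ¬ Q i ω then p ω else 0 := by
      rw [Finset.sum_comm]
      refine Finset.sum_congr rfl fun i _ => ?_
      rw [Pe_eq]
      refine Finset.sum_congr rfl fun ω _ => ?_
      congr
    rw [e, ← Finset.sum_add_distrib]
    refine Finset.sum_le_sum fun ω _ => ?_
    have hn := hp.nonneg ω
    have hs0 : 0 ≤ ∑ i, (if A ω ∧ ¬ Q i ω then p ω else 0) :=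
      Finset.sum_nonneg fun i _ => by split_ifs <;> first | exact hn | exact le_rfl
    by_cases hA : A ω
    · rw [if_pos hA]
      by_cases hQ : ∀ i, Q i ω
      · rw [if_pos ⟨hA, hQ⟩]
        linarith
      · push Not at hQ
        obtain ⟨i, hi⟩ := hQ
        have h2 : p ω ≤ ∑ i, (if A ω ∧ ¬ Q i ω then p ω else 0) := by
          refine le_trans ?_ (Finset.single_le_sum
            (f := fun i => if A ω ∧ ¬ Q i ω then p ω else 0)
            (fun i _ => by split_ifs <;> first | exact hn | exact le_rfl) (Finset.mem_univ i))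
          rw [if_pos ⟨hA, hi⟩]
        refine le_add_of_nonneg_of_le ?_ ?_
        · split_ifs <;> first | exact hn | exact le_rfl
        · convert h2
    · rw [if_neg hA, if_neg (fun h => hA h.1)]
      linarith
  have h2 : ∑ i, Pe p (fun ω => A ω ∧ ¬ Q i ω) ≤ Fintype.card ι * (δ * Pe p A) := by
    refine (Finset.sum_le_sum fun i _ => h i).trans (le_of_eq ?_)
    rw [Finset.sum_const, Finset.card_univ, nsmul_eq_mul]
  nlinarith

end union

end Pool.M5.Dat
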