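import Mathlib

/-!
# Jumps of monotone bounded functions

`g` is nondecreasing with values in `[0, G]`. The number of `a` with a growth of at least `γ` on
`[a - x, a]` is at most `x G / γ`; these `a` are covered by at most `G / γ` intervals of length
`x`. The same for the growth on `[w, w + z]`.
-/

set_option autoImplicit false

namespace Pool.M5.Gaps

open Finset

theorem sum_fwd_le {g : ℕ → ℝ} (h0 : ∀ a, 0 ≤ g a) {G : ℝ} (h1 : ∀ a, g a ≤ G) (n z : ℕ) :
    ∑ w ∈ range n, (g (w + z) - g w) ≤ z * G := by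
  induction z with
  | zero => simp
  | succ z ih =>
    have e : ∑ w ∈ range n, (g (w + (z + 1)) - g w) =
        ∑ w ∈ range n, (g (w + z) - g w) + ∑ w ∈ range n, (g (w + 1 + z) - g (w + z)) := by
      rw [← Finset.sum_add_distrib]
      refine Finset.sum_congr rfl fun w _ => ?_
      have : w + (z + 1) = w + 1 + z := by ring
      rw [this]
      ring
    rw [e, Finset.sum_range_sub (fun w => g (w + z))]
    have h2 := h1 (n + z)
    have h3 := h0 (0 + z)
    push_cast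
    linarith

theorem sum_bwd_le {g : ℕ → ℝ} (h0 : ∀ a, 0 ≤ g a) {G : ℝ} (h1 : ∀ a, g a ≤ G) (n x : ℕ) :
    ∑ a ∈ range n, (g a - g (a - x)) ≤ x * G := by
  induction x with
  | zero => simp
  | succ x ih =>
    have e : ∑ a ∈ range n, (g a - g (a - (x + 1))) =
        ∑ a ∈ range n, (g a - g (a - x)) + ∑ a ∈ range n, (g (a - x) - g (a - (x + 1))) := by
      rw [← Finset.sum_add_distrib]
      refine Finset.sum_congr rfl fun a _ => ?_
      ring
    have e2 : ∑ a ∈ range n, (g (a - x) - g (a - (x + 1))) = g (n - (x + 1)) - g 0 := by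
      clear e ih
      induction n with
      | zero => simp
      | succ n ih =>
        rw [Finset.sum_range_succ, ih, Nat.add_sub_add_right]
        ring
    rw [e, e2]
    have h2 := h1 (n - (x + 1))
    have h3 := h0 0
    push_cast
    linarith

theorem card_mul_le {ι : Type} (s : Finset ι) (f : ι → ℝ) (hf : ∀ i ∈ s, 0 ≤ f i) (γ : ℝ)
    (B : ℝ) (h : ∑ i ∈ s, f i ≤ B) (p : ι → Prop) [DecidablePred p]
    (hp : ∀ i ∈ s, p i → γ ≤ f i) : ((s.filter p).card : ℝ) * γ ≤ B := by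
  rw [← nsmul_eq_mul]
  refine (Finset.card_nsmul_le_sum _ f _ fun i hi => hp i (Finset.mem_filter.1 hi).1
    (Finset.mem_filter.1 hi).2).trans (le_trans ?_ h)
  exact Finset.sum_le_sum_of_subset_of_nonneg (Finset.filter_subset _ _) fun i hi _ => hf i hi

open Classical in
/-- The number of `w` with a growth of at least `γ` on `[w, w + z]`. -/
theorem card_fwd {g : ℕ → ℝ} (hg : Monotone g) (h0 : ∀ a, 0 ≤ g a) {G : ℝ} (h1 : ∀ a, g a ≤ G)
    (n z : ℕ) (γ : ℝ) : (((range n).filter fun w => γ ≤ g (w + z) - g w).card : ℝ) * γ ≤ z * G :=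
  card_mul_le _ _ (fun w _ => sub_nonneg.2 (hg (Nat.le_add_right w z))) γ _
    (sum_fwd_le h0 h1 n z) _ fun _ _ h => h

open Classical in
/-- The number of `a` with a growth of at least `γ` on `[a - x, a]`. -/
theorem card_bwd {g : ℕ → ℝ} (hg : Monotone g) (h0 : ∀ a, 0 ≤ g a) {G : ℝ} (h1 : ∀ a, g a ≤ G)
    (n x : ℕ) (γ : ℝ) : (((range n).filter fun a => γ ≤ g a - g (a - x)).card : ℝ) * γ ≤ x * G :=
  card_mul_le _ _ (fun a _ => sub_nonneg.2 (hg (Nat.sub_le a x))) γ _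
    (sum_bwd_le h0 h1 n x) _ fun _ _ h => h

open Classical in
/-- The number of `w` with a growth of more than `A z` on `[w, w + z]` is at most `G / A`. -/
theorem card_fwd' {g : ℕ → ℝ} (hg : Monotone g) (h0 : ∀ a, 0 ≤ g a) {G : ℝ}
    (h1 : ∀ a, g a ≤ G) (n z : ℕ) (A : ℝ) (hz : 0 < z) :
    (((range n).filter fun w => A * z < g (w + z) - g w).card : ℝ) * A ≤ G := by
  have h := card_mul_le (range n) (fun w => g (w + z) - g w)
    (fun w _ => sub_nonneg.2 (hg (Nat.le_add_right w z))) (A * z) _ (sum_fwd_le h0 h1 n z)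
    (fun w => A * z < g (w + z) - g w) fun _ _ h => h.le
  have hz' : (0 : ℝ) < z := by exact_mod_cast hz
  have h2 : ((((range n).filter fun w => A * z < g (w + z) - g w).card : ℝ) * A) * z ≤ G * z := by
    calc _ = (((range n).filter fun w => A * z < g (w + z) - g w).card : ℝ) * (A * z) := by ring
      _ ≤ z * G := h
      _ = G * z := mul_comm _ _
  exact le_of_mul_le_mul_right h2 hz'

/-- A set is covered by the intervals `[t, t + x]`, `t` in a subset with distances larger than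
`x`. -/
theorem exists_sep (x : ℕ) (S : Finset ℕ) : ∃ T ⊆ S, (∀ t ∈ T, ∀ t' ∈ T, t < t' → t + x < t') ∧
    ∀ s ∈ S, ∃ t ∈ T, t ≤ s ∧ s ≤ t + x := by
  classical
  induction S using Finset.induction_on_max with
  | empty => exact ⟨∅, Finset.Subset.refl _, by simp, by simp⟩
  | insert a S ha ih =>
    obtain ⟨T, hT, h1, h2⟩ := ih
    by_cases h : ∃ t ∈ T, a ≤ t + x
    · obtain ⟨t, ht, hta⟩ := h
      refine ⟨T, hT.trans (Finset.subset_insert _ _), h1, fun s hs => ?_⟩
      rcases Finset.mem_insert.1 hs with rfl | hs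
      · exact ⟨t, ht, (ha t (hT ht)).le, hta⟩
      · exact h2 s hs
    · push Not at h
      refine ⟨insert a T, Finset.insert_subset_insert _ hT, ?_, fun s hs => ?_⟩
      · intro t ht t' ht' htt
        rcases Finset.mem_insert.1 ht with e | k
        · rcases Finset.mem_insert.1 ht' with e' | k'
          · exact absurd htt (by rw [e, e']; exact lt_irrefl _)
          · exact absurd (ha t' (hT k')) (not_lt.2 (by rw [← e]; exact htt.le))
        · rcases Finset.mem_insert.1 ht' with e' | k'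
          · rw [e']
            exact h t k
          · exact h1 t k t' k' htt
      · rcases Finset.mem_insert.1 hs with rfl | hs
        · exact ⟨s, Finset.mem_insert_self _ _, le_rfl, Nat.le_add_right _ _⟩
        · obtain ⟨t, ht, h3⟩ := h2 s hs
          exact ⟨t, Finset.mem_insert_of_mem ht, h3⟩

/-- The growth on disjoint intervals. -/
theorem sum_sep_le {g : ℕ → ℝ} (hg : Monotone g) (h0 : ∀ a, 0 ≤ g a) (x : ℕ) (T : Finset ℕ)
    (hT : ∀ t ∈ T, ∀ t' ∈ T, t < t' → t + x < t') (b : ℕ) (hb : ∀ t ∈ T, t ≤ b) :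
    ∑ t ∈ T, (g t - g (t - x)) ≤ g b := by
  classical
  induction T using Finset.induction_on_max generalizing b with
  | empty => simpa using h0 b
  | insert a T ha ih =>
    rw [Finset.sum_insert (fun h => lt_irrefl a (ha a h))]
    have h1 : ∑ t ∈ T, (g t - g (t - x)) ≤ g (a - x) := by
      refine ih (fun t ht t' ht' => hT t (Finset.mem_insert_of_mem ht) t'
        (Finset.mem_insert_of_mem ht')) _ fun t ht => ?_
      have := hT t (Finset.mem_insert_of_mem ht) a (Finset.mem_insert_self _ _) (ha t ht)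
      omega
    have h2 : g a ≤ g b := hg (hb a (Finset.mem_insert_self _ _))
    linarith

theorem sum_sep_le' {g : ℕ → ℝ} (hg : Monotone g) (h0 : ∀ a, 0 ≤ g a) (x : ℕ) (T : Finset ℕ)
    (hT : ∀ t ∈ T, ∀ t' ∈ T, t < t' → t + x < t') (b : ℕ) (hb : ∀ t ∈ T, t + x ≤ b) :
    ∑ t ∈ T, (g (t + x) - g t) ≤ g b := by
  classical
  induction T using Finset.induction_on_max generalizing b with
  | empty => simpa using h0 b
  | insert a T ha ih =>
    rw [Finset.sum_insert (fun h => lt_irrefl a (ha a h))]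
    have h1 : ∑ t ∈ T, (g (t + x) - g t) ≤ g a := by
      refine ih (fun t ht t' ht' => hT t (Finset.mem_insert_of_mem ht) t'
        (Finset.mem_insert_of_mem ht')) _ fun t ht => ?_
      have := hT t (Finset.mem_insert_of_mem ht) a (Finset.mem_insert_self _ _) (ha t ht)
      omega
    have h2 : g (a + x) ≤ g b := hg (hb a (Finset.mem_insert_self _ _))
    linarith

/-- A set of positions with distances larger than `x`, all with growth at least `γ` on
`[t - x, t]`. -/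
theorem card_sep {g : ℕ → ℝ} (hg : Monotone g) (h0 : ∀ a, 0 ≤ g a) {G : ℝ} (h1 : ∀ a, g a ≤ G)
    (x : ℕ) (T : Finset ℕ) (hT : ∀ t ∈ T, ∀ t' ∈ T, t < t' → t + x < t') (γ : ℝ)
    (hγ : ∀ t ∈ T, γ ≤ g t - g (t - x)) : (T.card : ℝ) * γ ≤ G := by
  rw [← nsmul_eq_mul]
  refine (Finset.card_nsmul_le_sum _ _ _ hγ).trans ?_
  exact (sum_sep_le hg h0 x T hT (T.sup id) fun t ht => Finset.le_sup (f := id) ht).trans (h1 _)

/-- The same for the growth on `[t, t + x]`. -/
theorem card_sep' {g : ℕ → ℝ} (hg : Monotone g) (h0 : ∀ a, 0 ≤ g a) {G : ℝ} (h1 : ∀ a, g a ≤ G)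
    (x : ℕ) (T : Finset ℕ) (hT : ∀ t ∈ T, ∀ t' ∈ T, t < t' → t + x < t') (γ : ℝ)
    (hγ : ∀ t ∈ T, γ ≤ g (t + x) - g t) : (T.card : ℝ) * γ ≤ G := by
  rw [← nsmul_eq_mul]
  refine (Finset.card_nsmul_le_sum _ _ _ hγ).trans ?_
  exact (sum_sep_le' hg h0 x T hT (T.sup id + x) fun t ht =>
    Nat.add_le_add_right (Finset.le_sup (f := id) ht) x).trans (h1 _)

/-- **Cover**: the positions with growth at least `γ` on `[a - x, a]` are covered by at most
`G / γ` intervals `[t, t + x]`. -/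
theorem cover_bwd {g : ℕ → ℝ} (hg : Monotone g) (h0 : ∀ a, 0 ≤ g a) {G : ℝ}
    (h1 : ∀ a, g a ≤ G) (x : ℕ) (γ : ℝ) (S : Finset ℕ) (hS : ∀ a ∈ S, γ ≤ g a - g (a - x)) :
    ∃ T ⊆ S, (T.card : ℝ) * γ ≤ G ∧ ∀ s ∈ S, ∃ t ∈ T, t ≤ s ∧ s ≤ t + x := by
  obtain ⟨T, hT, h2, h3⟩ := exists_sep x S
  exact ⟨T, hT, card_sep hg h0 h1 x T h2 γ fun t ht => hS t (hT ht), h3⟩

/-- The same for the growth on `[w, w + z]`. -/
theorem cover_fwd {g : ℕ → ℝ} (hg : Monotone g) (h0 : ∀ a, 0 ≤ g a) {G : ℝ}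
    (h1 : ∀ a, g a ≤ G) (z : ℕ) (γ : ℝ) (S : Finset ℕ) (hS : ∀ a ∈ S, γ ≤ g (a + z) - g a) :
    ∃ T ⊆ S, (T.card : ℝ) * γ ≤ G ∧ ∀ s ∈ S, ∃ t ∈ T, t ≤ s ∧ s ≤ t + z := by
  obtain ⟨T, hT, h2, h3⟩ := exists_sep z S
  exact ⟨T, hT, card_sep' hg h0 h1 z T h2 γ fun t ht => hS t (hT ht), h3⟩

open Classical in
/-- **Runs**: the number of beginnings of maximal runs, where positions at distance at most `x`
belong to the same run. -/
theorem card_runs {g : ℕ → ℝ} (hg : Monotone g) (h0 : ∀ a, 0 ≤ g a) {G : ℝ}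
    (h1 : ∀ a, g a ≤ G) (x : ℕ) (γ : ℝ) (S : Finset ℕ) (hS : ∀ a ∈ S, γ ≤ g a - g (a - x)) :
    ((S.filter fun a => ∀ a' ∈ S, a' < a → a' + x < a).card : ℝ) * γ ≤ G :=
by
  refine card_sep hg h0 h1 x _ (fun t ht t' ht' htt => ?_) γ
    fun t ht => hS t (Finset.mem_filter.1 ht).1
  have h2 := (Finset.mem_filter.1 ht').2
  exact h2 t (Finset.mem_filter.1 ht).1 htt

open Classical in
theorem card_runs' {g : ℕ → ℝ} (hg : Monotone g) (h0 : ∀ a, 0 ≤ g a) {G : ℝ}
    (h1 : ∀ a, g a ≤ G) (z : ℕ) (γ : ℝ) (S : Finset ℕ) (hS : ∀ a ∈ S, γ ≤ g (a + z) - g a) :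
    ((S.filter fun a => ∀ a' ∈ S, a' < a → a' + z < a).card : ℝ) * γ ≤ G :=
by
  refine card_sep' hg h0 h1 z _ (fun t ht t' ht' htt => ?_) γ
    fun t ht => hS t (Finset.mem_filter.1 ht).1
  have h2 := (Finset.mem_filter.1 ht').2
  exact h2 t (Finset.mem_filter.1 ht).1 htt

/-! ### Values in `ℕ` -/

theorem card_bwd_nat {g : ℕ → ℕ} (hg : Monotone g) {G : ℕ} (h1 : ∀ a, g a ≤ G)
    (n x γ : ℕ) : ((range n).filter fun a => γ ≤ g a - g (a - x)).card * γ ≤ x * G := by
  classical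
  have h := card_mul_le (range n) (fun a => (g a : ℝ) - g (a - x))
    (fun a _ => sub_nonneg.2 (by exact_mod_cast hg (Nat.sub_le a x))) γ _
    (sum_bwd_le (g := fun a => (g a : ℝ)) (fun a => Nat.cast_nonneg _) (G := (G : ℝ))
      (fun a => Nat.cast_le.2 (h1 a)) n x) (fun a => γ ≤ g a - g (a - x)) fun a _ h => by
        have h2 : ((g a - g (a - x) : ℕ) : ℝ) = (g a : ℝ) - g (a - x) :=
          Nat.cast_sub (hg (Nat.sub_le a x))
        rw [← h2]
        exact_mod_cast h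
  exact_mod_cast h

theorem card_fwd_nat {g : ℕ → ℕ} (hg : Monotone g) {G : ℕ} (h1 : ∀ a, g a ≤ G)
    (n z γ : ℕ) : ((range n).filter fun w => γ ≤ g (w + z) - g w).card * γ ≤ z * G := by
  classical
  have h := card_mul_le (range n) (fun a => (g (a + z) : ℝ) - g a)
    (fun a _ => sub_nonneg.2 (by exact_mod_cast hg (Nat.le_add_right a z))) γ _
    (sum_fwd_le (g := fun a => (g a : ℝ)) (fun a => Nat.cast_nonneg _) (G := (G : ℝ))
      (fun a => Nat.cast_le.2 (h1 a)) n z) (fun w => γ ≤ g (w + z) - g w) fun a _ h => by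
        have h2 : ((g (a + z) - g a : ℕ) : ℝ) = (g (a + z) : ℝ) - g a :=
          Nat.cast_sub (hg (Nat.le_add_right a z))
        rw [← h2]
        exact_mod_cast h
  exact_mod_cast h

theorem sum_fwd_nat {g : ℕ → ℕ} (hg : Monotone g) {G : ℕ} (h1 : ∀ a, g a ≤ G) (n z : ℕ) :
    ∑ w ∈ range n, (g (w + z) - g w) ≤ z * G := by
  have h := sum_fwd_le (g := fun a => (g a : ℝ)) (fun a => Nat.cast_nonneg _) (G := (G : ℝ))
    (fun a => Nat.cast_le.2 (h1 a)) n z
  have e : ((∑ w ∈ range n, (g (w + z) - g w) : ℕ) : ℝ) =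
      ∑ w ∈ range n, ((g (w + z) : ℝ) - g w) := by
    rw [Nat.cast_sum]
    exact Finset.sum_congr rfl fun w _ => Nat.cast_sub (hg (Nat.le_add_right w z))
  rw [← e] at h
  exact_mod_cast h

theorem card_fwd_nat' {g : ℕ → ℕ} (hg : Monotone g) {G : ℕ} (h1 : ∀ a, g a ≤ G)
    (n z A : ℕ) (hz : 0 < z) :
    ((range n).filter fun w => A * z < g (w + z) - g w).card * A ≤ G := by
  have h := card_fwd_nat hg h1 n z (A * z)
  have h2 : ((range n).filter fun w => A * z < g (w + z) - g w).card ≤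
      ((range n).filter fun w => A * z ≤ g (w + z) - g w).card := by
    refine Finset.card_le_card fun w hw => ?_
    rw [Finset.mem_filter] at hw ⊢
    exact ⟨hw.1, hw.2.le⟩
  have h3 : ((range n).filter fun w => A * z < g (w + z) - g w).card * A * z ≤ G * z := by
    calc _ = ((range n).filter fun w => A * z < g (w + z) - g w).card * (A * z) := by ring
      _ ≤ _ := Nat.mul_le_mul_right _ h2
      _ ≤ z * G := h
      _ = G * z := mul_comm _ _
  exact Nat.le_of_mul_le_mul_right h3 hz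

theorem cover_bwd_nat {g : ℕ → ℕ} (hg : Monotone g) {G : ℕ} (h1 : ∀ a, g a ≤ G) (x γ : ℕ)
    (S : Finset ℕ) (hS : ∀ a ∈ S, γ ≤ g a - g (a - x)) :
    ∃ T ⊆ S, T.card * γ ≤ G ∧ ∀ s ∈ S, ∃ t ∈ T, t ≤ s ∧ s ≤ t + x := by
  obtain ⟨T, hT, h2, h3⟩ := cover_bwd (g := fun a => (g a : ℝ)) (G := (G : ℝ))
    (fun a b h => Nat.cast_le.2 (hg h)) (fun a => Nat.cast_nonneg _)
    (fun a => Nat.cast_le.2 (h1 a)) x (γ : ℝ) S (fun a ha => by
        have h2 : ((g a - g (a - x) : ℕ) : ℝ) = (g a : ℝ) - g (a - x) :=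
          Nat.cast_sub (hg (Nat.sub_le a x))
        rw [← h2]
        exact_mod_cast hS a ha)
  exact ⟨T, hT, by exact_mod_cast h2, h3⟩

theorem cover_fwd_nat {g : ℕ → ℕ} (hg : Monotone g) {G : ℕ} (h1 : ∀ a, g a ≤ G) (z γ : ℕ)
    (S : Finset ℕ) (hS : ∀ a ∈ S, γ ≤ g (a + z) - g a) :
    ∃ T ⊆ S, T.card * γ ≤ G ∧ ∀ s ∈ S, ∃ t ∈ T, t ≤ s ∧ s ≤ t + z := by
  obtain ⟨T, hT, h2, h3⟩ := cover_fwd (g := fun a => (g a : ℝ)) (G := (G : ℝ))
    (fun a b h => Nat.cast_le.2 (hg h)) (fun a => Nat.cast_nonneg _)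
    (fun a => Nat.cast_le.2 (h1 a)) z (γ : ℝ) S (fun a ha => by
        have h2 : ((g (a + z) - g a : ℕ) : ℝ) = (g (a + z) : ℝ) - g a :=
          Nat.cast_sub (hg (Nat.le_add_right a z))
        rw [← h2]
        exact_mod_cast hS a ha)
  exact ⟨T, hT, by exact_mod_cast h2, h3⟩

end Pool.M5.Gaps
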